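import Pool.Agent.Lib.MP_755cca_al.Low.Defs

/-!
# From a factorisation of length six to the ten chart integers
-/

open Matrix

namespace Pool.Agent.Lib.MP_755cca_al.Cnt

/-- The determinant of three vectors given by their coordinates. -/
def d3 (x0 x1 x2 y0 y1 y2 z0 z1 z2 : ℤ) : ℤ :=
  x0 * (y1 * z2 - y2 * z1) - x1 * (y0 * z2 - y2 * z0) + x2 * (y0 * z1 - y1 * z0)

theorem red0 (x1 y1 z1 x2 y2 z2 x3 y3 z3 x4 y4 z4 x5 y5 z5 x6 y6 z6 : ℤ)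
    (g : Matrix (Fin 3) (Fin 3) ℤ)
    (hg : g = !![1, x1, y1; 0, 1, z1; 0, 0, 1] * !![1, 0, 0; x2, 1, 0; y2, z2, 1] *
      !![1, x3, y3; 0, 1, z3; 0, 0, 1] * !![1, 0, 0; x4, 1, 0; y4, z4, 1] *
      !![1, x5, y5; 0, 1, z5; 0, 0, 1] * !![1, 0, 0; x6, 1, 0; y6, z6, 1])
    (h0 : g 0 2 = 1) (h1 : g 1 2 = 0) (h2 : g 2 2 = 0) :
    ∃ a b c d f g' h k l m : ℤ,
      d3 (1 + f * d + g' * a) (f + g' * b) g' 1 h k m (1 + m * h) (l + m * k) = 1 ∧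
      d3 (1 + f * d + g' * a) (f + g' * b) g' (d + c * a) (1 + c * b) c m (1 + m * h) (l + m * k)
        = g 2 1 ∧
      d3 (1 + f * d + g' * a) (f + g' * b) g' a b 1 m (1 + m * h) (l + m * k)
        = z1 * g 2 1 - g 1 1 := by
  simp only [Matrix.mul_fin_three] at hg
  subst hg
  simp only [of_apply, cons_val', cons_val_zero, cons_val_one, cons_val_two, cons_val_fin_one,
    Nat.succ_eq_add_one, Nat.reduceAdd, vecHead, vecTail, Function.comp_apply,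
    Fin.succ_zero_eq_one] at h0 h1 h2 ⊢
  refine ⟨x3 * z3 - y3, -z3, -z2, -x3, -x2, x2 * z2 - y2, x4, y4, z4, x5, ?_, ?_, ?_⟩
  · obtain ⟨α, hα⟩ : ∃ α, α = x4 * z4 - y4 := ⟨_, rfl⟩
    obtain ⟨β, hβ⟩ : ∃ β, β = -x3 * α - z4 := ⟨_, rfl⟩
    obtain ⟨γ, hγ⟩ : ∃ γ, γ = (x3 * z3 - y3) * α + z3 * z4 + 1 := ⟨_, rfl⟩
    obtain ⟨α', hα'⟩ : ∃ α', α' = α - x2 * β + (x2 * z2 - y2) * γ := ⟨_, rfl⟩
    obtain ⟨β', hβ'⟩ : ∃ β', β' = β - z2 * γ := ⟨_, rfl⟩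
    have key := congrArg (fun t => α' * t) h0
    have key1 := congrArg (fun t => (-x1 * α' + β') * t) h1
    have key2 := congrArg (fun t => ((x1 * z1 - y1) * α' - z1 * β' + γ) * t) h2
    subst hβ' hα' hγ hβ hα
    unfold d3
    linear_combination -key - key1 - key2
  · unfold d3
    linear_combination (-z6) * h2
  · unfold d3
    linear_combination (-z6 * z1) * h2 + z6 * h1

/-- If the class is not missed, the ten chart integers exist. -/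
theorem chart_of_not_miss {p a₀ : ℤ} (H : ¬ Low.Miss p a₀) :
    ∃ a b c d f g h k l m : ℤ,
      d3 (1 + f * d + g * a) (f + g * b) g 1 h k m (1 + m * h) (l + m * k) = 1 ∧
      (d3 (1 + f * d + g * a) (f + g * b) g (d + c * a) (1 + c * b) c m (1 + m * h)
        (l + m * k)).natAbs = p.natAbs ∧
      (p ∣ d3 (1 + f * d + g * a) (f + g * b) g a b 1 m (1 + m * h) (l + m * k) - a₀ ∨
        p ∣ d3 (1 + f * d + g * a) (f + g * b) g a b 1 m (1 + m * h) (l + m * k) + a₀) := by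
  unfold Low.Miss at H
  push Not at H
  obtain ⟨u₁, hu₁, v₁, hv₁, u₂, hu₂, v₂, hv₂, u₃, hu₃, v₃, hv₃, G, hG, h0, h1, h2, h3, h4⟩ := H
  obtain ⟨x1, y1, z1, rfl⟩ := Low.Up.three hu₁
  obtain ⟨x2, y2, z2, rfl⟩ := Low.Lo.three hv₁
  obtain ⟨x3, y3, z3, rfl⟩ := Low.Up.three hu₂
  obtain ⟨x4, y4, z4, rfl⟩ := Low.Lo.three hv₂
  obtain ⟨x5, y5, z5, rfl⟩ := Low.Up.three hu₃
  obtain ⟨x6, y6, z6, rfl⟩ := Low.Lo.three hv₃
  obtain ⟨a, b, c, d, f, g, h, k, l, m, e0, e1, e2⟩ :=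
    red0 _ _ _ _ _ _ _ _ _ _ _ _ _ _ _ _ _ _ G hG h0 h1 h2
  refine ⟨a, b, c, d, f, g, h, k, l, m, e0, ?_, ?_⟩
  · rw [e1]
    rcases h3 with h3 | h3 <;> simp [h3]
  · rw [e2]
    have hp : p ∣ z1 * G 2 1 := by
      rcases h3 with h3 | h3 <;> simp [h3]
    rcases h4 with h4 | h4
    · right
      rw [show z1 * G 2 1 - G 1 1 + a₀ = z1 * G 2 1 - (G 1 1 - a₀) by ring]
      exact dvd_sub hp h4
    · left
      rw [show z1 * G 2 1 - G 1 1 - a₀ = z1 * G 2 1 - (G 1 1 + a₀) by ring]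
      exact dvd_sub hp h4

end Pool.Agent.Lib.MP_755cca_al.Cnt
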