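import Pool.Agent.Lib.MP_755cca_al.Cnt.Fin
import Pool.Agent.Lib.MP_755cca_al.Cnt.Red

/-!
# Assembly: a good starting context gives a missed class; batches of lemmas
-/

namespace Pool.Agent.Lib.MP_755cca_al.Cnt

/-- A counting tree for relations which hold on the chart gives a missed class. -/
theorem miss_of_good {R : ℕ → Option Rel} (hG : Good R ctx0)
    (hX : ∀ a b c d f g h k l m : ℤ,
      d3 (1 + f * d + g * a) (f + g * b) g 1 h k m (1 + m * h) (l + m * k) = 1 →
      ∃ x : ℕ → ℤ, (∀ n r, R n = some r → RelZ x r) ∧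
        (x 0).natAbs = (d3 (1 + f * d + g * a) (f + g * b) g (d + c * a) (1 + c * b) c m
          (1 + m * h) (l + m * k)).natAbs ∧
        (x 1).natAbs =
          (d3 (1 + f * d + g * a) (f + g * b) g a b 1 m (1 + m * h) (l + m * k)).natAbs) :
    ∃ p a : ℤ, IsCoprime p a ∧ Low.Miss p a := by
  obtain ⟨p, a₀, hp, h0, h1, H⟩ := exists_missed_int hG
  refine ⟨p, a₀, ?_, ?_⟩
  · rw [Int.isCoprime_iff_gcd_eq_one, Int.gcd_natCast_natCast]
    exact (Nat.Prime.coprime_iff_not_dvd hp).2 (Nat.not_dvd_of_pos_of_lt h0 h1)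
  · by_contra hc
    obtain ⟨a, b, c, d, f, g, h, k, l, m, e0, e1, e2⟩ := chart_of_not_miss hc
    obtain ⟨x, hx, x0, x1⟩ := hX a b c d f g h k l m e0
    obtain ⟨n1, n2⟩ := H x hx (by rw [x0, e1]; simp)
    rcases Int.natAbs_eq_natAbs_iff.1 x1 with h' | h'
    · rw [← h'] at e2
      exact e2.elim n1 n2
    · rcases e2 with e2 | e2
      · exact n2 (by rw [h', ← dvd_neg, neg_add', neg_neg]; exact e2)
      · exact n1 (by rw [h', ← dvd_neg, neg_sub', neg_neg, sub_neg_eq_add]; exact e2)

/-- The context of a zero mask. -/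
def cz (z : ℕ) : Ctx := ⟨z, 1, z ||| 1, 0, []⟩

/-- Binary trees of zero masks. -/
inductive MT where
  | nil
  | node (z : ℕ) (l h : MT)

/-- Lookup, as for `RT.get`. -/
def MT.get : MT → ℕ → Option ℕ
  | .nil, _ => none
  | .node z l h, k =>
    cond (Nat.beq k 0) (some z) (cond (Nat.beq (k % 2) 1) (l.get (k / 2)) (h.get (k / 2 - 1)))

/-- All masks of the tree give good contexts. -/
def MT.AllGood (R : ℕ → Option Rel) (S : MT) : Prop := ∀ k z, S.get k = some z → Good R (cz z)

/-- The contexts with the given indices. -/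
def MT.pick (S : MT) : List ℕ → List Ctx
  | [] => []
  | k :: ks =>
    match S.get k with
    | none => S.pick ks
    | some z => cz z :: S.pick ks

theorem MT.AllGood.pick {R : ℕ → Option Rel} {S : MT} (h : S.AllGood R) :
    ∀ ks : List ℕ, ∀ c ∈ S.pick ks, Good R c
  | [], c, hc => by simp [MT.pick] at hc
  | k :: ks, c, hc => by
    rw [MT.pick] at hc
    cases hk : S.get k with
    | none => exact h.pick ks c (by simpa [hk] using hc)
    | some z =>
      simp only [hk, List.mem_cons] at hc
      rcases hc with rfl | hc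
      · exact h k z hk
      · exact h.pick ks c hc

/-- Binary trees of lemmas: a zero mask, the indices of the earlier lemmas used, a tree. -/
inductive LT where
  | nil
  | node (z : ℕ) (ks : List ℕ) (t : Tr) (l h : LT)

/-- The masks of a tree of lemmas. -/
def LT.masks : LT → MT
  | .nil => .nil
  | .node z _ _ l h => .node z l.masks h.masks

/-- Checking all lemmas; `ref n` refers to the `n`-th index of the lemma's list. -/
def LT.ok (R : ℕ → Option Rel) (S : MT) : LT → Bool
  | .nil => true
  | .node z ks t l h => check R G0 (S.pick ks) t (cz z) && l.ok R S && h.ok R S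

theorem MT.AllGood.nil (R : ℕ → Option Rel) : MT.nil.AllGood R := fun _ _ h => by
  simp [MT.get] at h

theorem MT.AllGood.node {R : ℕ → Option Rel} {z : ℕ} {l h : MT} (hz : Good R (cz z))
    (hl : l.AllGood R) (hh : h.AllGood R) : (MT.node z l h).AllGood R := by
  intro k z' hk
  rw [MT.get] at hk
  cases h0 : Nat.beq k 0
  · cases h1 : Nat.beq (k % 2) 1
    · exact hh _ _ (by simpa [h0, h1] using hk)
    · exact hl _ _ (by simpa [h0, h1] using hk)
  · have : z = z' := by simpa [h0] using hk
    exact this ▸ hz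

theorem LT.sound {R : ℕ → Option Rel} {S : MT} (hS : S.AllGood R) :
    ∀ {L : LT}, L.ok R S = true → L.masks.AllGood R
  | .nil, _ => MT.AllGood.nil R
  | .node z ks t l h, H => by
    simp only [LT.ok, Bool.and_eq_true] at H
    exact MT.AllGood.node (check_good (hS.pick ks) t _ H.1.1) (LT.sound hS H.1.2)
      (LT.sound hS H.2)

theorem good_ctx0 {R : ℕ → Option Rel} (h : Good R (cz 0)) : Good R ctx0 := h

end Pool.Agent.Lib.MP_755cca_al.Cnt
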