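import Pool.Agent.Lib.MP_755cca_al.Cnt.Far

/-!
# Soundness of the tree checker
-/

namespace Pool.Agent.Lib.MP_755cca_al.Cnt

open Finset

variable {R : ℕ → Option Rel} {G : ℕ → ℕ × ℕ} {c : Ctx}

section Holds
variable {y : Pt}

theorem Ctx.Holds.addZ (h : c.Holds y) {i : ℕ} (hi : y i = 0) : (c.addZ i).Holds y :=
  ⟨h.prime, fun j hj => (testBit_ins.1 hj).elim (h.z j) (fun e => e ▸ hi), h.n,
    fun j hj => (testBit_ins.1 hj).elim (h.p j) (fun e => by rw [e, hi]; exact dvd_zero _),
    h.u, h.f⟩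

theorem Ctx.Holds.addN (h : c.Holds y) {M : Mono} (hM : ev y M ≠ 0) : (c.addN M).Holds y :=
  ⟨h.prime, h.z, fun j hj => (testBit_insL.1 hj).elim (h.n j) (ne_zero_of_ev hM), h.p, h.u, h.f⟩

theorem Ctx.Holds.addP (h : c.Holds y) {i : ℕ} (hi : y 0 ∣ y i) : (c.addP i).Holds y :=
  ⟨h.prime, h.z, h.n, fun j hj => (testBit_ins.1 hj).elim (h.p j) (fun e => e ▸ hi), h.u, h.f⟩

theorem Ctx.Holds.addU (h : c.Holds y) {M : Mono} (hM : ¬ y 0 ∣ ev y M) : (c.addU M).Holds y :=
  ⟨h.prime, h.z, fun j hj => (testBit_insL.1 hj).elim (h.n j)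
      (ne_zero_of_ev fun e => hM (by rw [e]; exact dvd_zero _)), h.p,
    fun j hj => (testBit_insL.1 hj).elim (h.u j) (fun hj hd => hM (hd.trans (dvd_ev hj))), h.f⟩

theorem Ctx.Holds.addF (h : c.Holds y) {a b : ℕ} (hM : FactOK y 1 (a, b)) :
    (c.addF a b).Holds y :=
  ⟨h.prime, h.z, h.n, h.p, h.u, fun m hm => (List.mem_cons.1 hm).elim (fun e => e ▸ hM) (h.f m)⟩

theorem fact_of_lg {M M' : Mono} {q q' : ℕ} (l : lowM M = true) (l' : lowM M' = true)
    (h : q * lg y M ≤ q' * lg y M') : FactOK y 1 (q * code M, q' * code M') :=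
  FactOK.of_rep ((Rep.code y l).smul q) ((Rep.code y l').smul q') (by push_cast; linarith)

theorem fact_of_le {M M' : Mono} (l : lowM M = true) (l' : lowM M' = true) (h0 : ev y M ≠ 0)
    (h : ev y M ≤ 2 * ev y M') : FactOK y 1 (code M, code M') := by
  refine FactOK.of_rep (Rep.code y l) (Rep.code y l') ?_
  have h1 : ev y M' ≠ 0 := by omega
  rw [← log_ev h0, ← log_ev h1]
  have a0 : (0 : ℝ) < ev y M := by exact_mod_cast Nat.pos_of_ne_zero h0
  have a1 : (ev y M' : ℝ) ≠ 0 := by exact_mod_cast h1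
  have a2 : (ev y M : ℝ) ≤ 2 * ev y M' := by exact_mod_cast h
  have a3 := Real.log_le_log a0 a2
  rw [Real.log_mul two_ne_zero a1] at a3
  have := Real.log_two_lt_d9
  push_cast
  linarith

theorem Ctx.Holds.addT (h : c.Holds y) {d e f : Mono} (hr : RelOK y (d, e, f))
    (od : okM c d = true) (oe : okM c e = true) (of : okM c f = true)
    (h2 : ev y d ≤ ev y e) (h3 : ev y d ≤ ev y f) :
    (c.addT (code d) (code e) (code f)).Holds y := by
  rw [okM_iff] at od oe of
  have h1 := h.ev_ne od.1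
  unfold RelOK Tri at hr
  dsimp only at hr
  refine ⟨h.prime, h.z, h.n, h.p, h.u, fun m hm => ?_⟩
  simp only [Ctx.addT, List.mem_cons] at hm
  rcases hm with hm | hm | hm | hm | hm
  · rw [hm]; exact fact_of_le od.2 oe.2 h1 (by omega)
  · rw [hm]; exact fact_of_le od.2 of.2 h1 (by omega)
  · rw [hm]; exact fact_of_le oe.2 of.2 (by omega) (by omega)
  · rw [hm]; exact fact_of_le of.2 oe.2 (by omega) (by omega)
  · exact h.f m hm

theorem Ctx.Holds.addM (h : c.Holds y) {d e f : Mono} (hr : RelOK y (d, e, f))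
    (od : okM c d = true) (oe : okM c e = true) (of : okM c f = true)
    (h2 : ¬ (ev y d ≤ ev y e ∧ ev y d ≤ ev y f)) :
    (c.addM (code d) (code e) (code f)).Holds y := by
  rw [okM_iff] at od oe of
  have h1 := h.ev_ne oe.1
  have h3 := h.ev_ne of.1
  unfold RelOK Tri at hr
  dsimp only at hr
  refine ⟨h.prime, h.z, h.n, h.p, h.u, fun m hm => ?_⟩
  simp only [Ctx.addM, List.mem_cons] at hm
  rcases hm with hm | hm | hm
  · rw [hm]; exact fact_of_le oe.2 od.2 h1 (by omega)
  · rw [hm]; exact fact_of_le of.2 od.2 h3 (by omega)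
  · exact h.f m hm

theorem lowM_append {M M' : Mono} (l : lowM M = true) (l' : lowM M' = true) :
    lowM (M ++ M') = true := by
  rw [lowM] at *
  rw [List.all_append, l, l']
  rfl

theorem Ctx.Holds.relax (h : c.Holds y) {r : Rel} (hr : RelOK y r)
    (od : okM c r.1 = true) (oe : okM c r.2.1 = true) (of : okM c r.2.2 = true) :
    FactOK y 1 (code r.1, code (r.2.1 ++ r.2.2)) := by
  rw [okM_iff] at od oe of
  refine fact_of_le od.2 (lowM_append oe.2 of.2) (h.ev_ne od.1) ?_
  have a1 := Nat.pos_of_ne_zero (h.ev_ne oe.1)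
  have a2 := Nat.pos_of_ne_zero (h.ev_ne of.1)
  rw [ev_append]
  have b1 := Nat.le_mul_of_pos_right (ev y r.2.1) a2
  have b2 := Nat.le_mul_of_pos_left (ev y r.2.2) a1
  unfold RelOK Tri at hr
  omega

theorem testBit_of_land {a b i : ℕ} (h : (a &&& b == a) = true) (hi : a.testBit i = true) :
    b.testBit i = true := by
  rw [beq_iff_eq] at h
  rw [← h, Nat.testBit_and, Bool.and_eq_true] at hi
  exact hi.2

theorem Ctx.Holds.of_weaker {c' : Ctx} (h : c.Holds y) (hw : c'.weaker c = true) :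
    c'.Holds y := by
  simp only [Ctx.weaker, Bool.and_eq_true] at hw
  obtain ⟨⟨⟨⟨h1, h2⟩, h3⟩, h4⟩, h5⟩ := hw
  refine ⟨h.prime, fun i hi => h.z i (testBit_of_land h1 hi),
    fun i hi => h.n i (testBit_of_land h2 hi), fun i hi => h.p i (testBit_of_land h3 hi),
    fun i hi => h.u i (testBit_of_land h4 hi), fun m hm => h.f m ?_⟩
  have := List.all_eq_true.1 h5 m hm
  simpa using this

end Holds

theorem lowM_zero : lowM [0] = true := by decide

theorem GoodG.step {c' : Ctx} (h : GoodG R G c') (hc : ∀ y ∈ Pts R c, c'.Holds y) :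
    GoodG R G c :=
  Few.mono h fun y hy => ⟨⟨hy.1.1, hc y hy.1⟩, hy.2⟩

theorem GoodG.split {c₀ c₁ : Ctx} (h₀ : GoodG R G c₀) (h₁ : GoodG R G c₁)
    (hc : ∀ y ∈ Pts R c, c₀.Holds y ∨ c₁.Holds y) : GoodG R G c :=
  Few.cover h₀ h₁ fun y hy =>
    (hc y hy.1).imp (fun h => ⟨⟨hy.1.1, h⟩, hy.2⟩) (fun h => ⟨⟨hy.1.1, h⟩, hy.2⟩)

theorem Good.goodG (h : Good R c) (G : ℕ → ℕ × ℕ) : GoodG R G c := Few.mono h fun _ hy => hy.1

theorem GoodG.good (h : GoodG R G0 c) : Good R c :=
  Few.mono h fun y hy => ⟨hy, fun _ => FactOK.zero y 1⟩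

/-- The points where `q lg S ≤ r log p`. -/
theorem cut_sound {S : Mono} {q r : ℕ} {e : Bool} {ds : List Step}
    (h : start R c S q r e ds = true) :
    Few {y | y ∈ Pts R c ∧ ¬ FactOK y 1 (r * code [0], q * code S)} tgt := by
  refine start_sound (m := 0) (fun y hy => hy.1) h fun l y hy => ?_
  by_contra hc
  refine hy.2 (fact_of_lg lowM_zero l ?_)
  simp only [lg_cons, lg_nil, add_zero, Nat.cast_zero] at hc ⊢
  exact (not_le.1 hc).le

/-- The points where `q lg (S ++ D) ≤ r log p`. -/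
theorem cutD_sound {S D : Mono} {q r : ℕ} {e : Bool} {ds : List Step}
    (h : startD R c S D q r e ds = true) :
    Few {y | y ∈ Pts R c ∧ ¬ FactOK y 1 (r * code [0], q * code (S ++ D))} tgt := by
  refine startD_sound (m := 0) (fun y hy => hy.1) h fun l y hy => ?_
  by_contra hc
  refine hy.2 (fact_of_lg lowM_zero l ?_)
  simp only [lg_cons, lg_nil, add_zero, Nat.cast_zero] at hc ⊢
  exact (not_le.1 hc).le

theorem Ctx.Holds.getD {y : Pt} (h : c.Holds y) (k : ℕ) : FactOK y 1 (c.F.getD k (0, 0)) := by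
  rw [List.getD_eq_getElem?_getD]
  cases hk : c.F[k]? with
  | none => exact FactOK.zero y 1
  | some m => exact h.f m (List.mem_of_getElem? hk)

theorem log_le_lg (y : Pt) {i : ℕ} : ∀ {M : Mono}, i ∈ M → Real.log (y i) ≤ lg y M
  | j :: M, h => by
    have h0 : 0 ≤ lg y M := List.sum_nonneg fun x hx => by
      obtain ⟨k, _, rfl⟩ := List.mem_map.1 hx
      exact log_nonneg' y k
    rw [lg_cons]
    rcases List.mem_cons.1 h with rfl | h
    · linarith
    · linarith [log_le_lg y h, log_nonneg' y j]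

theorem Ctx.Holds.cutU {y : Pt} (h : c.Holds y) {S : Mono} {q r : ℕ} (hS : okM c S = true)
    (hq : r < 2 * q) (hn : ¬ FactOK y 1 (r * code [0], q * code (0 :: S))) :
    ((c.addU S).addF (q * code (0 :: S)) (r * code [0])).Holds y := by
  rw [okM_iff] at hS
  have l : lowM (0 :: S) = true := lowM_append lowM_zero hS.2
  have h1 : q * lg y (0 :: S) ≤ r * lg y [0] := by
    by_contra hc
    exact hn (fact_of_lg lowM_zero l (not_le.1 hc).le)
  refine (h.addU (not_dvd_ev h.prime fun i hi hd => ?_)).addF (fact_of_lg l lowM_zero h1)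
  have a1 : y 0 ≤ y i := Nat.le_of_dvd (Nat.pos_of_ne_zero (h.n i (allB_iff.1 hS.1 i hi))) hd
  have a2 : (1 : ℝ) < y 0 := by exact_mod_cast h.prime.one_lt
  have a3 : Real.log (y 0) ≤ Real.log (y i) := Real.log_le_log (by linarith) (by exact_mod_cast a1)
  have a4 := log_le_lg y hi
  have a5 := Real.log_pos a2
  have a6 : (r : ℝ) < 2 * q := by exact_mod_cast hq
  have a7 : (0 : ℝ) ≤ q := Nat.cast_nonneg q
  simp only [lg_cons, lg_nil, add_zero] at h1
  nlinarith [mul_le_mul_of_nonneg_left (a3.trans a4) a7, mul_lt_mul_of_pos_right a6 a5]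

attribute [local irreducible] farkas start startD code in
theorem check_sound {H : List Ctx} (hH : ∀ c ∈ H, GoodG R G c) :
    ∀ (t : Tr) (c : Ctx), check R G H t c = true → GoodG R G c
  | .zero i t₀ t₁, c, h => by
    simp only [check, Bool.and_eq_true] at h
    refine (check_sound hH t₀ _ h.1).split (check_sound hH t₁ _ h.2) fun y hy => ?_
    by_cases hi : y i = 0
    · exact Or.inl (hy.2.addZ hi)
    · exact Or.inr (hy.2.addN (by simpa using hi))
  | .pd i t₀ t₁, c, h => by
    simp only [check, Bool.and_eq_true] at h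
    refine (check_sound hH t₀ _ h.1).split (check_sound hH t₁ _ h.2) fun y hy => ?_
    by_cases hi : y 0 ∣ y i
    · exact Or.inl (hy.2.addP hi)
    · exact Or.inr (hy.2.addU (by simpa using hi))
  | .tri k t₀ t₁ t₂, c, h => by
    rw [check] at h
    cases hk : R k with
    | none => simp [hk] at h
    | some r =>
      simp only [hk, Bool.and_eq_true] at h
      obtain ⟨⟨⟨⟨⟨n0, n1⟩, n2⟩, h0⟩, h1⟩, h2⟩ := h
      have g0 := check_sound hH t₀ _ h0
      have g1 := check_sound hH t₁ _ h1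
      have g2 := check_sound hH t₂ _ h2
      refine Few.mono ((Few.union g0 g1).union g2) fun y hy => ?_
      have hr := hy.1.1 k r hk
      by_cases b0 : ev y r.1 ≤ ev y r.2.1 ∧ ev y r.1 ≤ ev y r.2.2
      · exact Or.inl (Or.inl ⟨⟨hy.1.1, hy.1.2.addT hr n0 n1 n2 b0.1 b0.2⟩, hy.2⟩)
      · by_cases b1 : ev y r.2.1 ≤ ev y r.2.2
        · exact Or.inl (Or.inr ⟨⟨hy.1.1, hy.1.2.addT (hr.rot 1) n1 n2 n0 b1 (by omega)⟩, hy.2⟩)
        · exact Or.inr ⟨⟨hy.1.1, hy.1.2.addT (hr.rot 2) n2 n0 n1 (by omega) (by omega)⟩, hy.2⟩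
  | .tri2 k j t₀ t₁, c, h => by
    rw [check] at h
    cases hk : R k with
    | none => simp [hk] at h
    | some r =>
      simp only [hk, Bool.and_eq_true] at h
      obtain ⟨⟨⟨⟨n0, n1⟩, n2⟩, h0⟩, h1⟩ := h
      refine (check_sound hH t₀ _ h0).split (check_sound hH t₁ _ h1) fun y hy => ?_
      have hr := (hy.1 k r hk).rot j
      by_cases b0 : ev y (rot r j).1 ≤ ev y (rot r j).2.1 ∧ ev y (rot r j).1 ≤ ev y (rot r j).2.2
      · exact Or.inr (hy.2.addT hr n0 n1 n2 b0.1 b0.2)
      · exact Or.inl (hy.2.addM hr n0 n1 n2 b0)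
  | .cmp M M' t₀ t₁, c, h => by
    simp only [check, Bool.and_eq_true] at h
    obtain ⟨⟨⟨n0, n1⟩, h0⟩, h1⟩ := h
    refine (check_sound hH t₀ _ h0).split (check_sound hH t₁ _ h1) fun y hy => ?_
    rcases le_total (lg y M) (lg y M') with b | b
    · exact Or.inl (hy.2.addF (FactOK.of_rep (Rep.code y n0) (Rep.code y n1)
        (by push_cast; linarith)))
    · exact Or.inr (hy.2.addF (FactOK.of_rep (Rep.code y n1) (Rep.code y n0)
        (by push_cast; linarith)))
  | .wcmp q M q' M' t₀ t₁, c, h => by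
    simp only [check, Bool.and_eq_true] at h
    obtain ⟨⟨⟨n0, n1⟩, h0⟩, h1⟩ := h
    refine (check_sound hH t₀ _ h0).split (check_sound hH t₁ _ h1) fun y hy => ?_
    rcases le_total (q * lg y M) (q' * lg y M') with b | b
    · exact Or.inl (hy.2.addF (fact_of_lg n0 n1 b))
    · exact Or.inr (hy.2.addF (fact_of_lg n1 n0 b))
  | .cut S q r e ds t, c, h => by
    simp only [check, Bool.and_eq_true] at h
    refine Few.cover (cut_sound h.1) (check_sound hH t _ h.2) fun y hy => ?_
    by_cases b : FactOK y 1 (r * code [0], q * code S)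
    · exact Or.inr ⟨⟨hy.1.1, hy.1.2.addF b⟩, hy.2⟩
    · exact Or.inl ⟨hy.1, b⟩
  | .relax k j t, c, h => by
    rw [check] at h
    cases hk : R k with
    | none => simp [hk] at h
    | some r =>
      simp only [hk, Bool.and_eq_true] at h
      obtain ⟨⟨⟨n0, n1⟩, n2⟩, h0⟩ := h
      exact (check_sound hH t _ h0).step fun y hy =>
        hy.2.addF (hy.2.relax ((hy.1 k r hk).rot j) n0 n1 n2)
  | .eqz k j t, c, h => by
    rw [check] at h
    cases hk : R k with
    | none => simp [hk] at h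
    | some r =>
      simp only [hk, Bool.and_eq_true, Bool.or_eq_true] at h
      obtain ⟨⟨⟨⟨z0, n1⟩, l1⟩, l2⟩, h0⟩ := h
      refine (check_sound hH t _ h0).step fun y hy => ?_
      have hr := (hy.1 k r hk).rot j
      have a0 := hy.2.ev_zero z0
      have a1 : ev y (rot r j).2.1 ≠ 0 ∨ ev y (rot r j).2.2 ≠ 0 :=
        n1.imp hy.2.ev_ne hy.2.ev_ne
      unfold RelOK Tri at hr
      exact (((hy.2.addN (by omega)).addN (by omega)).addF
        (fact_of_le l2 l1 (by omega) (by omega))).addF (fact_of_le l1 l2 (by omega) (by omega))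
  | .pge i t, c, h => by
    simp only [check, Bool.and_eq_true, okM_iff] at h
    obtain ⟨⟨h1, h2, h3⟩, h0⟩ := h
    refine (check_sound hH t _ h0).step fun y hy => hy.2.addF (fact_of_le lowM_zero h3 ?_ ?_)
    · simpa using hy.2.prime.ne_zero
    · have h4 := hy.2.ev_ne h2
      simp only [ev_cons, ev_nil, mul_one] at h4 ⊢
      have := Nat.le_of_dvd (Nat.pos_of_ne_zero h4) (hy.2.p i h1)
      omega
  | .unc k j t, c, h => by
    rw [check] at h
    cases hk : R k with
    | none => simp [hk] at h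
    | some r =>
      simp only [hk, Bool.and_eq_true, Bool.or_eq_true] at h
      obtain ⟨⟨z0, n1⟩, h0⟩ := h
      refine (check_sound hH t _ h0).step fun y hy => ?_
      have hr := (hy.1 k r hk).rot j
      have a0 := hy.2.ev_dvd z0
      have a1 : ¬ y 0 ∣ ev y (rot r j).2.1 ∨ ¬ y 0 ∣ ev y (rot r j).2.2 :=
        n1.imp hy.2.ev_unit hy.2.ev_unit
      have a2 : y 0 ∣ ev y (rot r j).2.1 ↔ y 0 ∣ ev y (rot r j).2.2 := by
        rcases hr with h | h | h
        · rw [h] at a0
          exact ⟨fun b => (Nat.dvd_add_right b).1 a0, fun b => (Nat.dvd_add_left b).1 a0⟩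
        · rw [h]
          exact Nat.dvd_add_right a0
        · rw [h]
          exact (Nat.dvd_add_right a0).symm
      exact (hy.2.addU (by tauto)).addU (by tauto)
  | .absZ k j, c, h => by
    rw [check] at h
    cases hk : R k with
    | none => simp [hk] at h
    | some r =>
      simp only [hk, Bool.and_eq_true] at h
      refine Few.of_empty fun y hy => ?_
      have hr := (hy.1.1 k r hk).rot j
      have a0 := hy.1.2.ev_ne h.1.1
      have a1 := hy.1.2.ev_zero h.1.2
      have a2 := hy.1.2.ev_zero h.2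
      unfold RelOK Tri at hr
      omega
  | .absP k j, c, h => by
    rw [check] at h
    cases hk : R k with
    | none => simp [hk] at h
    | some r =>
      simp only [hk, Bool.and_eq_true] at h
      refine Few.of_empty fun y hy => ?_
      have a0 := hy.1.2.ev_unit h.1.1
      have a1 := hy.1.2.ev_dvd h.1.2
      have a2 := hy.1.2.ev_dvd h.2
      rcases (hy.1.1 k r hk).rot j with h | h | h
      · exact a0 (h ▸ Nat.dvd_add a1 a2)
      · rw [h] at a1
        exact a0 ((Nat.dvd_add_left a2).1 a1)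
      · rw [h] at a2
        exact a0 ((Nat.dvd_add_left a1).1 a2)
  | .ref n, c, h => by
    rw [check] at h
    cases hk : H[n]? with
    | none => simp [hk] at h
    | some c' =>
      simp only [hk] at h
      exact (hH c' (List.mem_of_getElem? hk)).step fun y hy => hy.2.of_weaker h
  | .leaf S q r e ms ds, c, h => by
    simp only [check, Bool.and_eq_true] at h
    exact start_sound (fun y hy => hy.1) h.1 fun l y hy =>
      farkas_sound h.2 l (sumP_ok hy.1.2.getD (SumOK.zero y) ms)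
  | .leafG S q r e w ms gs ds, c, h => by
    simp only [check, Bool.and_eq_true] at h
    exact start_sound (fun y hy => hy.1) h.1 fun l y hy =>
      farkas_sound h.2 l (sumL_ok w (sumG_ok hy.2 w (SumOK.zero y) _ _) _ _ hy.1.2.f)
  | .fin w ms gs, c, h => by
    rw [check] at h
    refine bounded_sound (m := (sumL w c.F ms (sumG G w 1000 gs (0, 0, 0))).2.2)
      (fun y hy => hy.1.2.prime) fun y hy => ?_
    have := farkas_sound h lowM_zero
      (sumL_ok w (sumG_ok hy.2 w (SumOK.zero y) _ _) _ _ hy.1.2.f)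
    simpa using this
  | .cutD S D q r e ds t, c, h => by
    simp only [check, Bool.and_eq_true] at h
    refine Few.cover (cutD_sound h.1) (check_sound hH t _ h.2) fun y hy => ?_
    by_cases b : FactOK y 1 (r * code [0], q * code (S ++ D))
    · exact Or.inr ⟨⟨hy.1.1, hy.1.2.addF b⟩, hy.2⟩
    · exact Or.inl ⟨hy.1, b⟩
  | .leafD S D q r e ms ds, c, h => by
    simp only [check, Bool.and_eq_true] at h
    exact startD_sound (fun y hy => hy.1) h.1 fun l y hy =>
      farkas_sound h.2 l (sumP_ok hy.1.2.getD (SumOK.zero y) ms)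
  | .leafDG S D q r e w ms gs ds, c, h => by
    simp only [check, Bool.and_eq_true] at h
    exact startD_sound (fun y hy => hy.1) h.1 fun l y hy =>
      farkas_sound h.2 l (sumL_ok w (sumG_ok hy.2 w (SumOK.zero y) _ _) _ _ hy.1.2.f)
  | .cutU S q r t₀ t₁, c, h => by
    simp only [check, Bool.and_eq_true, Nat.blt_eq] at h
    refine (check_sound hH t₀ _ h.1.2).split (check_sound hH t₁ _ h.2) fun y hy => ?_
    by_cases b : FactOK y 1 (r * code [0], q * code (0 :: S))
    · exact Or.inr (hy.2.addF b)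
    · exact Or.inl (hy.2.cutU h.1.1.1 h.1.1.2 b)

/-- Without a table. -/
theorem check_good {H : List Ctx} (hH : ∀ c ∈ H, Good R c) (t : Tr) (c : Ctx)
    (h : check R G0 H t c = true) : Good R c :=
  (check_sound (fun c hc => (hH c hc).goodG G0) t c h).good

theorem Just.sound : ∀ {j : Just}, j.ok R c = true →
    Few {y | y ∈ Pts R c ∧ ¬ FactOK y 1 (j.fact R)} tgt
  | .relax k j, h => by
    refine Few.of_empty fun y hy => hy.2 ?_
    rw [Just.ok] at h
    rw [Just.fact]
    cases hk : R k with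
    | none => exact FactOK.zero y 1
    | some r =>
      simp only [hk, Bool.and_eq_true] at h
      exact hy.1.2.relax ((hy.1.1 k r hk).rot j) h.1.1 h.1.2 h.2
  | .cut S q r e ds, h => cut_sound h
  | .cutD S D q r e ds, h => cutD_sound h
  | .cutU S q r t, h => by
    simp only [Just.ok, Bool.and_eq_true, Nat.blt_eq] at h
    exact Few.mono (check_good (by simp) t _ h.2) fun y hy =>
      ⟨hy.1.1, hy.1.2.cutU h.1.1 h.1.2 hy.2⟩
  | .tree q M q' M' t, h => by
    simp only [Just.ok, Bool.and_eq_true] at h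
    refine Few.mono (check_good (by simp) t _ h.2) fun y hy => ⟨hy.1.1, hy.1.2.addF ?_⟩
    rcases le_total (q * lg y M) (q' * lg y M') with b | b
    · exact (hy.2 (fact_of_lg h.1.1 h.1.2 b)).elim
    · exact fact_of_lg h.1.2 h.1.1 b

theorem JT.sound : ∀ {J : JT}, J.ok R c = true →
    Few {y | y ∈ Pts R c ∧ ¬ ∀ k, FactOK y 1 (J.table R k)} tgt
  | .nil, _ => Few.of_empty fun y hy => hy.2 fun _ => FactOK.zero y 1
  | .node j l h, H => by
    simp only [JT.ok, Bool.and_eq_true] at H
    refine Few.mono (((Just.sound H.1.1).union (JT.sound H.1.2)).union (JT.sound H.2))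
      fun y hy => ?_
    by_contra hc
    simp only [Set.mem_union, Set.mem_ofPred_eq, not_or, not_and, not_not] at hc
    refine hy.2 fun k => ?_
    rw [JT.table]
    cases Nat.beq k 0
    · cases Nat.beq (k % 2) 1
      · exact hc.2 hy.1 _
      · exact hc.1.2 hy.1 _
    · exact hc.1.1 hy.1

/-- Removing the table. -/
theorem Good.of_table {J : JT} (hJ : J.ok R c = true) (h : GoodG R (J.table R) c) : Good R c := by
  refine Few.cover (JT.sound hJ) h fun y hy => ?_
  by_cases b : ∀ k, FactOK y 1 (J.table R k)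
  · exact Or.inr ⟨hy, b⟩
  · exact Or.inl ⟨hy, b⟩

end Pool.Agent.Lib.MP_755cca_al.Cnt
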