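import Pool.Agent.Lib.MP_755cca_al.Cnt.Few

/-!
# A reflective checker for counting trees: definitions

A point gives natural numbers `y i` (absolute values of integer variables), `y 0 = p` is a prime and
the target is the pair `(p, y 1 ^ 2 mod p)`, that is the class of `y 1` modulo `p` up to sign.
-/

namespace Pool.Agent.Lib.MP_755cca_al.Cnt

/-- A monomial is the list of its variables (with repetition). -/
abbrev Mono := List ℕ

/-- A three-term relation. -/
abbrev Rel := Mono × Mono × Mono

/-- The value of a monomial. -/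
def ev (y : Pt) (M : Mono) : ℕ := (M.map y).prod

/-- One of the three numbers is the sum of the other two. -/
def Tri (a b c : ℕ) : Prop := a = b + c ∨ b = a + c ∨ c = a + b

/-- The relation holds up to signs. -/
def RelOK (y : Pt) (r : Rel) : Prop := Tri (ev y r.1) (ev y r.2.1) (ev y r.2.2)

/-- Rotation putting term `j` first. -/
def rot (r : Rel) : ℕ → Rel
  | 0 => r
  | 1 => (r.2.1, r.2.2, r.1)
  | _ => (r.2.2, r.1, r.2.1)

/-- The sum of the logarithms of the variables of a monomial. -/
noncomputable def lg (y : Pt) (M : Mono) : ℝ := (M.map fun i => Real.log (y i)).sum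

/-- The class of variable `i` modulo `p = y 0`, up to sign. -/
def cl (y : Pt) (i : ℕ) : ℕ := y i ^ 2 % y 0

/-- The target: `p` and the class of variable `1`. -/
def tgt (y : Pt) : ℕ × ℕ := (y 0, cl y 1)

/-- Add `i` to a bit mask. -/
def ins (m i : ℕ) : ℕ := m ||| 2 ^ i

/-- Add all members of a list to a bit mask. -/
def insL (m : ℕ) : Mono → ℕ
  | [] => m
  | i :: M => ins (insL m M) i

/-- All members of the list are in the mask. -/
def allB (m : ℕ) (M : Mono) : Bool := M.all fun i => m.testBit i

/-- Some member of the list is in the mask. -/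
def anyB (m : ℕ) (M : Mono) : Bool := M.any fun i => m.testBit i

/-- The base of the codes, `2 ^ 64`. -/
def BB : ℕ := 18446744073709551616

/-- The code of one variable: digit `i`, and digit `160` which counts the total weight. -/
def wcode (i : ℕ) : ℕ := 2 ^ (64 * i) + 2 ^ 10240

/-- The code of a monomial. -/
def code : Mono → ℕ
  | [] => 0
  | i :: M => wcode i + code M

/-- The code of a weight vector. -/
def cd (u : ℕ → ℕ) : ℕ := ∑ i ∈ Finset.range 160, u i * wcode i

/-- The linear form in the logarithms given by a weight vector. -/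
noncomputable def lin (y : Pt) (u : ℕ → ℕ) : ℝ :=
  ∑ i ∈ Finset.range 160, (u i : ℝ) * Real.log (y i)

/-- The pair of codes is a true inequality between logarithms, up to the constant `k`. -/
def FactOK (y : Pt) (k : ℕ) (m : ℕ × ℕ) : Prop :=
  ∃ u v : ℕ → ℕ, m.1 = cd u ∧ m.2 = cd v ∧ lin y u ≤ lin y v + k

/-- A context: masks of the zero, nonzero, `p`-divisible and `p`-unit variables, and size facts;
the fact `(code M, code M')` means `lg M ≤ lg M' + 1`. -/
structure Ctx where
  Z : ℕ
  N : ℕ
  P : ℕ
  U : ℕ
  F : List (ℕ × ℕ)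

/-- The point satisfies the context. -/
structure Ctx.Holds (c : Ctx) (y : Pt) : Prop where
  prime : (y 0).Prime
  z : ∀ i, c.Z.testBit i = true → y i = 0
  n : ∀ i, c.N.testBit i = true → y i ≠ 0
  p : ∀ i, c.P.testBit i = true → y 0 ∣ y i
  u : ∀ i, c.U.testBit i = true → ¬ y 0 ∣ y i
  f : ∀ m ∈ c.F, FactOK y 1 m

/-- The starting context: `p` is nonzero and divisible by `p`. -/
def ctx0 : Ctx := ⟨0, 1, 1, 0, []⟩

def Ctx.addZ (c : Ctx) (i : ℕ) : Ctx := ⟨ins c.Z i, c.N, ins c.P i, c.U, c.F⟩
def Ctx.addN (c : Ctx) (M : Mono) : Ctx := ⟨c.Z, insL c.N M, c.P, c.U, c.F⟩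
def Ctx.addP (c : Ctx) (i : ℕ) : Ctx := ⟨c.Z, c.N, ins c.P i, c.U, c.F⟩
def Ctx.addU (c : Ctx) (M : Mono) : Ctx := ⟨c.Z, insL c.N M, c.P, insL c.U M, c.F⟩
def Ctx.addF (c : Ctx) (a b : ℕ) : Ctx := ⟨c.Z, c.N, c.P, c.U, (a, b) :: c.F⟩

/-- The four facts for: the first term is the smallest. -/
def Ctx.addT (c : Ctx) (d e f : ℕ) : Ctx :=
  ⟨c.Z, c.N, c.P, c.U, (d, e) :: (d, f) :: (e, f) :: (f, e) :: c.F⟩

/-- The two facts for: the first term is not the smallest. -/
def Ctx.addM (c : Ctx) (d e f : ℕ) : Ctx := ⟨c.Z, c.N, c.P, c.U, (e, d) :: (f, d) :: c.F⟩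

/-- `c'` asks for no more than `c`. -/
def Ctx.weaker (c' c : Ctx) : Bool :=
  (c'.Z &&& c.Z == c'.Z) && (c'.N &&& c.N == c'.N) && (c'.P &&& c.P == c'.P) &&
    (c'.U &&& c.U == c'.U) && c'.F.all fun m => c.F.contains m

/-- The points satisfying all relations and the context. -/
def Pts (R : ℕ → Option Rel) (c : Ctx) : Set Pt :=
  {y | (∀ k r, R k = some r → RelOK y r) ∧ c.Holds y}

/-- The target takes few values on the points of the context. -/
def Good (R : ℕ → Option Rel) (c : Ctx) : Prop := Few (Pts R c) tgt

/-- The same for the points which also satisfy all facts of the table `G`. -/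
def GoodG (R : ℕ → Option Rel) (G : ℕ → ℕ × ℕ) (c : Ctx) : Prop :=
  Few {y | y ∈ Pts R c ∧ ∀ k, FactOK y 1 (G k)} tgt

/-- The empty table. -/
def G0 : ℕ → ℕ × ℕ := fun _ => (0, 0)

/-- Derivation steps. -/
inductive Step where
  /-- the two other terms are known, term `j` of relation `k` is nonzero: its variables are known -/
  | rel (k j : ℕ)
  /-- `p` divides the known nonzero variable `i`: `p` is known -/
  | pdiv (i : ℕ)
  /-- solve relation `k` modulo `p` for the variable `x` of term `j` -/
  | md (k j x : ℕ)

/-- The value of the monomial is known. -/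
def kn (c : Ctx) (K : ℕ) (M : Mono) : Bool := allB K M || anyB c.Z M

/-- The class of the monomial is known (`KK` is the mask of the variables of known class). -/
def knm (c : Ctx) (KK : ℕ) (M : Mono) : Bool := allB KK M || anyB c.P M

/-- Run a derivation; `K` are the known variables, `Km` those of known class. -/
def run (R : ℕ → Option Rel) (c : Ctx) : List Step → ℕ → ℕ → Bool
  | [], K, Km => K.testBit 0 && (K.testBit 1 || Km.testBit 1 || c.P.testBit 1)
  | .rel k j :: ds, K, Km =>
    match R k with
    | none => false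
    | some r => kn c K (rot r j).2.1 && kn c K (rot r j).2.2 && allB c.N (rot r j).1 &&
        run R c ds (insL K (rot r j).1) Km
  | .pdiv i :: ds, K, Km =>
    K.testBit i && c.N.testBit i && c.P.testBit i && run R c ds (ins K 0) Km
  | .md k j x :: ds, K, Km =>
    match R k with
    | none => false
    | some r => K.testBit 0 && knm c (K ||| Km) (rot r j).2.1 && knm c (K ||| Km) (rot r j).2.2 &&
        (rot r j).1.contains x && allB (K ||| Km) ((rot r j).1.erase x) &&
        allB c.U ((rot r j).1.erase x) && run R c ds K (ins Km x)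

/-- All variables have index below `160`. -/
def lowM (M : Mono) : Bool := M.all fun i => Nat.blt i 160

/-- All variables are nonzero and have index below `160`. -/
def okM (c : Ctx) (M : Mono) : Bool := M.all fun i => c.N.testBit i && Nat.blt i 160

/-- Digitwise comparison of the first `n` digits. -/
def cmpD : ℕ → ℕ → ℕ → Bool
  | 0, _, _ => true
  | n + 1, a, b => Nat.ble (a % BB) (b % BB) && cmpD n (a / BB) (b / BB)

/-- The weight vector coded by `a` is dominated by the one coded by `b`. -/
def dom (a b : ℕ) : Bool := Nat.blt a (2 ^ 10304) && Nat.blt b (2 ^ 10304) && cmpD 160 a b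

/-- Add `m` times a fact to a sum `(left, right, constant)`. -/
def acc (m : ℕ) (f : ℕ × ℕ) (s : ℕ × ℕ × ℕ) : ℕ × ℕ × ℕ :=
  (m * f.1 + s.1, m * f.2 + s.2.1, m + s.2.2)

/-- Sum of facts given by a list of pairs (index, multiplier). -/
def sumP (G : ℕ → ℕ × ℕ) : List (ℕ × ℕ) → ℕ × ℕ × ℕ → ℕ × ℕ × ℕ
  | [], s => s
  | x :: ms, s => acc x.2 (G x.1) (sumP G ms s)

/-- Sum of branch facts, packed: entries of `8 + w` bits, lowest first; the low 8 bits are the
number of facts to skip, the next `w` bits the multiplier of the fact reached. -/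
def sumL (w : ℕ) : List (ℕ × ℕ) → ℕ → ℕ × ℕ × ℕ → ℕ × ℕ × ℕ
  | [], _, s => s
  | f :: F, n, s =>
    cond (Nat.beq n 0) s (cond (Nat.beq (n % 256) 0)
      (acc (n / 256 % 2 ^ w) f (sumL w F (n / 2 ^ (w + 8)) s)) (sumL w F (n - 1) s))

/-- Sum of table facts, packed: entries of `16 + w` bits, lowest first; the low 16 bits are the
index, the next `w` bits the multiplier. -/
def sumG (G : ℕ → ℕ × ℕ) (w : ℕ) : ℕ → ℕ → ℕ × ℕ × ℕ → ℕ × ℕ × ℕ
  | 0, _, s => s
  | k + 1, n, s =>
    cond (Nat.beq n 0) s
      (acc (n / 65536 % 2 ^ w) (G (n % 65536)) (sumG G w k (n / 2 ^ (w + 16)) s))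

/-- The sum `s` of facts gives `q * lg S ≤ r * log p + const`. -/
def farkas (S : Mono) (q r : ℕ) (s : ℕ × ℕ × ℕ) : Bool :=
  dom (q * code S + s.2.1) (r * wcode 0 + s.1)

/-- Count the values of `S` (and, if `e`, the class of variable `1`), then derive the target. -/
def start (R : ℕ → Option Rel) (c : Ctx) (S : Mono) (q r : ℕ) (e : Bool) (ds : List Step) : Bool :=
  okM c S && Nat.blt (r + (if e then q else 0)) (2 * q) &&
    run R c ds (insL 0 S) (if e then 2 else 0)

/-- Count `p`, the values of `S`, the quotients `y i / p` for `i` in `D` (and, if `e`, the class of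
variable `1`), then derive the target. -/
def startD (R : ℕ → Option Rel) (c : Ctx) (S D : Mono) (q r : ℕ) (e : Bool) (ds : List Step) :
    Bool :=
  okM c (S ++ D) && allB c.P D && Nat.blt 0 q &&
    Nat.blt (r + q + (if e then q else 0)) (2 * q + q * D.length) &&
    run R c ds (insL 0 (0 :: (S ++ D))) (if e then 2 else 0)

/-- Counting trees. -/
inductive Tr where
  /-- `y i = 0` or not -/
  | zero (i : ℕ) (t₀ t₁ : Tr)
  /-- `p ∣ y i` or not -/
  | pd (i : ℕ) (t₀ t₁ : Tr)
  /-- which term of relation `k` (all three nonzero) is the smallest -/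
  | tri (k : ℕ) (t₀ t₁ t₂ : Tr)
  /-- term `j` of relation `k` (all three nonzero) is not the smallest, or it is -/
  | tri2 (k j : ℕ) (t₀ t₁ : Tr)
  /-- `lg M ≤ lg M'` or `lg M' ≤ lg M` -/
  | cmp (M M' : Mono) (t₀ t₁ : Tr)
  /-- `q lg M ≤ q' lg M'` or `q' lg M' ≤ q lg M` -/
  | wcmp (q : ℕ) (M : Mono) (q' : ℕ) (M' : Mono) (t₀ t₁ : Tr)
  /-- `q lg S ≤ r log p` is counted by the derivation `ds`; go on with `r log p ≤ q lg S` -/
  | cut (S : Mono) (q r : ℕ) (e : Bool) (ds : List Step) (t : Tr)
  /-- all terms nonzero: term `j` is at most twice the product of the other two -/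
  | relax (k j : ℕ) (t : Tr)
  /-- term `j` is zero, one of the others is nonzero: both are nonzero and equal -/
  | eqz (k j : ℕ) (t : Tr)
  /-- `p ∣ y i ≠ 0`, so `p ≤ y i` -/
  | pge (i : ℕ) (t : Tr)
  /-- `p` divides term `j`, one of the others is a unit: both are units -/
  | unc (k j : ℕ) (t : Tr)
  /-- term `j` is nonzero, the other two are zero -/
  | absZ (k j : ℕ)
  /-- term `j` is a unit, `p` divides the other two -/
  | absP (k j : ℕ)
  /-- use the `n`-th context already known to be good -/
  | ref (n : ℕ)
  /-- count the values of `S`; `ms` lists (index of a branch fact, most recent first; multiplier) -/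
  | leaf (S : Mono) (q r : ℕ) (e : Bool) (ms : List (ℕ × ℕ)) (ds : List Step)
  /-- the same with packed multipliers for branch facts and table facts -/
  | leafG (S : Mono) (q r : ℕ) (e : Bool) (w ms gs : ℕ) (ds : List Step)
  /-- `p` is bounded; packed multipliers -/
  | fin (w ms gs : ℕ)
  /-- `cut` with quotients: go on with `r log p ≤ q lg (S ++ D)` -/
  | cutD (S D : Mono) (q r : ℕ) (e : Bool) (ds : List Step) (t : Tr)
  /-- `leaf` with quotients: the certificate gives `q lg (S ++ D) ≤ r log p + const` -/
  | leafD (S D : Mono) (q r : ℕ) (e : Bool) (ms : List (ℕ × ℕ)) (ds : List Step)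
  /-- `leafG` with quotients -/
  | leafDG (S D : Mono) (q r : ℕ) (e : Bool) (w ms gs : ℕ) (ds : List Step)
  /-- `q lg (0 :: S) ≤ r log p` with `r < 2 q`, then all members of `S` are units; or the reverse -/
  | cutU (S : Mono) (q r : ℕ) (t₀ t₁ : Tr)

/-- The checker; `G` is a table of facts, `H` a list of contexts already known to be good. -/
def check (R : ℕ → Option Rel) (G : ℕ → ℕ × ℕ) (H : List Ctx) : Tr → Ctx → Bool
  | .zero i t₀ t₁, c => check R G H t₀ (c.addZ i) && check R G H t₁ (c.addN [i])
  | .pd i t₀ t₁, c => check R G H t₀ (c.addP i) && check R G H t₁ (c.addU [i])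
  | .tri k t₀ t₁ t₂, c =>
    match R k with
    | none => false
    | some r => okM c r.1 && okM c r.2.1 && okM c r.2.2 &&
        check R G H t₀ (c.addT (code r.1) (code r.2.1) (code r.2.2)) &&
        check R G H t₁ (c.addT (code r.2.1) (code r.2.2) (code r.1)) &&
        check R G H t₂ (c.addT (code r.2.2) (code r.1) (code r.2.1))
  | .tri2 k j t₀ t₁, c =>
    match R k with
    | none => false
    | some r => okM c (rot r j).1 && okM c (rot r j).2.1 && okM c (rot r j).2.2 &&
        check R G H t₀ (c.addM (code (rot r j).1) (code (rot r j).2.1) (code (rot r j).2.2)) &&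
        check R G H t₁ (c.addT (code (rot r j).1) (code (rot r j).2.1) (code (rot r j).2.2))
  | .cmp M M' t₀ t₁, c =>
    lowM M && lowM M' && check R G H t₀ (c.addF (code M) (code M')) &&
      check R G H t₁ (c.addF (code M') (code M))
  | .wcmp q M q' M' t₀ t₁, c =>
    lowM M && lowM M' && check R G H t₀ (c.addF (q * code M) (q' * code M')) &&
      check R G H t₁ (c.addF (q' * code M') (q * code M))
  | .cut S q r e ds t, c =>
    start R c S q r e ds && check R G H t (c.addF (r * code [0]) (q * code S))
  | .relax k j t, c =>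
    match R k with
    | none => false
    | some r => okM c (rot r j).1 && okM c (rot r j).2.1 && okM c (rot r j).2.2 &&
        check R G H t (c.addF (code (rot r j).1) (code ((rot r j).2.1 ++ (rot r j).2.2)))
  | .eqz k j t, c =>
    match R k with
    | none => false
    | some r => anyB c.Z (rot r j).1 && (allB c.N (rot r j).2.1 || allB c.N (rot r j).2.2) &&
        lowM (rot r j).2.1 && lowM (rot r j).2.2 &&
        check R G H t ((((c.addN (rot r j).2.1).addN (rot r j).2.2).addF
          (code (rot r j).2.2) (code (rot r j).2.1)).addF (code (rot r j).2.1) (code (rot r j).2.2))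
  | .pge i t, c => c.P.testBit i && okM c [i] && check R G H t (c.addF (code [0]) (code [i]))
  | .unc k j t, c =>
    match R k with
    | none => false
    | some r => anyB c.P (rot r j).1 && (allB c.U (rot r j).2.1 || allB c.U (rot r j).2.2) &&
        check R G H t ((c.addU (rot r j).2.1).addU (rot r j).2.2)
  | .absZ k j, c =>
    match R k with
    | none => false
    | some r => allB c.N (rot r j).1 && anyB c.Z (rot r j).2.1 && anyB c.Z (rot r j).2.2
  | .absP k j, c =>
    match R k with
    | none => false
    | some r => allB c.U (rot r j).1 && anyB c.P (rot r j).2.1 && anyB c.P (rot r j).2.2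
  | .ref n, c =>
    match H[n]? with
    | none => false
    | some c' => c'.weaker c
  | .leaf S q r e ms ds, c =>
    start R c S q r e ds && farkas S q r (sumP (fun i => c.F.getD i (0, 0)) ms (0, 0, 0))
  | .leafG S q r e w ms gs ds, c =>
    start R c S q r e ds && farkas S q r (sumL w c.F ms (sumG G w 1000 gs (0, 0, 0)))
  | .fin w ms gs, c => farkas [0] 1 0 (sumL w c.F ms (sumG G w 1000 gs (0, 0, 0)))
  | .cutD S D q r e ds t, c =>
    startD R c S D q r e ds && check R G H t (c.addF (r * code [0]) (q * code (S ++ D)))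
  | .leafD S D q r e ms ds, c =>
    startD R c S D q r e ds &&
      farkas (S ++ D) q r (sumP (fun i => c.F.getD i (0, 0)) ms (0, 0, 0))
  | .leafDG S D q r e w ms gs ds, c =>
    startD R c S D q r e ds && farkas (S ++ D) q r (sumL w c.F ms (sumG G w 1000 gs (0, 0, 0)))
  | .cutU S q r t₀ t₁, c =>
    okM c S && Nat.blt r (2 * q) &&
      check R G H t₀ ((c.addU S).addF (q * code (0 :: S)) (r * code [0])) &&
      check R G H t₁ (c.addF (r * code [0]) (q * code (0 :: S)))

/-- Justifications of table facts. -/
inductive Just where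
  /-- term `j` of relation `k` is at most twice the product of the other two -/
  | relax (k j : ℕ)
  /-- `r log p ≤ q lg S`; the other case is counted by the derivation `ds` -/
  | cut (S : Mono) (q r : ℕ) (e : Bool) (ds : List Step)
  /-- `q lg M ≤ q' lg M'`; the other case is counted by the tree `t` -/
  | tree (q : ℕ) (M : Mono) (q' : ℕ) (M' : Mono) (t : Tr)
  /-- `r log p ≤ q lg (S ++ D)`; the other case is counted with quotients -/
  | cutD (S D : Mono) (q r : ℕ) (e : Bool) (ds : List Step)
  /-- `r log p ≤ q lg (0 :: S)`; in the other case the members of `S` are units, tree `t` -/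
  | cutU (S : Mono) (q r : ℕ) (t : Tr)

/-- The fact given by a justification. -/
def Just.fact (R : ℕ → Option Rel) : Just → ℕ × ℕ
  | .relax k j =>
    match R k with
    | none => (0, 0)
    | some r => (code (rot r j).1, code ((rot r j).2.1 ++ (rot r j).2.2))
  | .cut S q r _ _ => (r * code [0], q * code S)
  | .tree q M q' M' _ => (q * code M, q' * code M')
  | .cutD S D q r _ _ => (r * code [0], q * code (S ++ D))
  | .cutU S q r _ => (r * code [0], q * code (0 :: S))

/-- Checking a justification in the context `c`. -/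
def Just.ok (R : ℕ → Option Rel) (c : Ctx) : Just → Bool
  | .relax k j =>
    match R k with
    | none => true
    | some r => okM c (rot r j).1 && okM c (rot r j).2.1 && okM c (rot r j).2.2
  | .cut S q r e ds => start R c S q r e ds
  | .tree q M q' M' t =>
    lowM M && lowM M' && check R G0 [] t (c.addF (q' * code M') (q * code M))
  | .cutD S D q r e ds => startD R c S D q r e ds
  | .cutU S q r t =>
    okM c S && Nat.blt r (2 * q) &&
      check R G0 [] t ((c.addU S).addF (q * code (0 :: S)) (r * code [0]))

/-- Binary trees of justifications. -/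
inductive JT where
  | nil
  | node (j : Just) (l h : JT)

/-- The table of facts: index `0` is the root, odd indices go left, even positive ones right. -/
def JT.table (R : ℕ → Option Rel) : JT → ℕ → ℕ × ℕ
  | .nil, _ => (0, 0)
  | .node j l h, k =>
    cond (Nat.beq k 0) (j.fact R)
      (cond (Nat.beq (k % 2) 1) (l.table R (k / 2)) (h.table R (k / 2 - 1)))

/-- Checking all justifications. -/
def JT.ok (R : ℕ → Option Rel) (c : Ctx) : JT → Bool
  | .nil => true
  | .node j l h => j.ok R c && l.ok R c && h.ok R c

/-- Binary search trees of relations (fast lookup by the binary digits of the index). -/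
inductive RT where
  | nil
  | node (r : Rel) (l h : RT)

/-- Lookup: index `0` is the root, odd indices go left, even positive indices go right. -/
def RT.get : RT → ℕ → Option Rel
  | .nil, _ => none
  | .node r l h, k =>
    if k = 0 then some r else if k % 2 = 1 then l.get (k / 2) else h.get (k / 2 - 1)

/-- All relations of the tree. -/
def RT.toList : RT → List Rel
  | .nil => []
  | .node r l h => r :: (l.toList ++ h.toList)

theorem RT.mem_of_get : ∀ (t : RT) (k : ℕ) (r : Rel), t.get k = some r → r ∈ t.toList
  | .nil, _, _, h => by simp [RT.get] at h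
  | .node r' l h', k, r, h => by
    simp only [RT.get] at h
    simp only [RT.toList, List.mem_cons, List.mem_append]
    split_ifs at h
    · exact Or.inl (Option.some.inj h).symm
    · exact Or.inr (Or.inl (RT.mem_of_get l _ r h))
    · exact Or.inr (Or.inr (RT.mem_of_get h' _ r h))

/-- The value of a monomial at an integer point. -/
def evZ (x : ℕ → ℤ) (M : Mono) : ℤ := (M.map x).prod

/-- The signed relation `T₁ + T₂ = T₃`. -/
def RelZ (x : ℕ → ℤ) (r : Rel) : Prop := evZ x r.1 + evZ x r.2.1 = evZ x r.2.2

end Pool.Agent.Lib.MP_755cca_al.Cnt
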