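import Pool.Agent.Lib.MP_755cca_al.Cnt.Run

/-!
# Soundness of coded Farkas certificates and of the counting start
-/

namespace Pool.Agent.Lib.MP_755cca_al.Cnt

open Finset

theorem log_nonneg' (y : Pt) (i : ℕ) : 0 ≤ Real.log (y i) := Real.log_natCast_nonneg _

@[simp] theorem lg_nil (y : Pt) : lg y [] = 0 := rfl

@[simp] theorem lg_cons (y : Pt) (i : ℕ) (M : Mono) :
    lg y (i :: M) = Real.log (y i) + lg y M := by
  simp [lg]

theorem lg_append (y : Pt) (M M' : Mono) : lg y (M ++ M') = lg y M + lg y M' := by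
  simp [lg]

/-- `a` is the code of a weight vector whose linear form has the value `x`. -/
def Rep (y : Pt) (a : ℕ) (x : ℝ) : Prop := ∃ u : ℕ → ℕ, a = cd u ∧ lin y u = x

theorem Rep.add {y : Pt} {a b : ℕ} {x z : ℝ} (h : Rep y a x) (h' : Rep y b z) :
    Rep y (a + b) (x + z) := by
  obtain ⟨u, e1, e2⟩ := h
  obtain ⟨v, e3, e4⟩ := h'
  rw [e1, e3, ← e2, ← e4]
  refine ⟨fun i => u i + v i, ?_, ?_⟩
  · simp only [cd, add_mul, sum_add_distrib]
  · simp only [lin, Nat.cast_add, add_mul, sum_add_distrib]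

theorem Rep.smul {y : Pt} {a : ℕ} {x : ℝ} (h : Rep y a x) (m : ℕ) : Rep y (m * a) (m * x) := by
  obtain ⟨u, e1, e2⟩ := h
  rw [e1, ← e2]
  refine ⟨fun i => m * u i, ?_, ?_⟩
  · simp only [cd, mul_sum, mul_assoc]
  · simp only [lin, Nat.cast_mul, mul_sum, mul_assoc]

theorem Rep.zero (y : Pt) : Rep y 0 0 := ⟨fun _ => 0, by simp [cd], by simp [lin]⟩

theorem Rep.var (y : Pt) {i : ℕ} (hi : i < 160) : Rep y (wcode i) (Real.log (y i)) := by
  refine ⟨fun j => if i = j then 1 else 0, ?_, ?_⟩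
  · simp only [cd, ite_mul, one_mul, zero_mul, sum_ite_eq, mem_range, hi, if_true]
  · simp only [lin, Nat.cast_ite, Nat.cast_one, Nat.cast_zero, ite_mul, one_mul, zero_mul,
      sum_ite_eq, mem_range, hi, if_true]

theorem Rep.code (y : Pt) : ∀ {M : Mono}, lowM M = true → Rep y (code M) (lg y M)
  | [], _ => Rep.zero y
  | i :: M, h => by
    simp only [lowM, List.all_cons, Bool.and_eq_true, Nat.blt_eq] at h
    rw [lg_cons]
    exact (Rep.var y h.1).add (Rep.code y (by simpa [lowM] using h.2))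

theorem FactOK.of_rep {y : Pt} {a b k : ℕ} {x z : ℝ} (h : Rep y a x) (h' : Rep y b z)
    (hk : x ≤ z + k) : FactOK y k (a, b) := by
  obtain ⟨u, e1, e2⟩ := h
  obtain ⟨v, e3, e4⟩ := h'
  exact ⟨u, v, e1, e3, by rw [e2, e4]; exact hk⟩

theorem FactOK.rep {y : Pt} {k : ℕ} {m : ℕ × ℕ} (h : FactOK y k m) :
    ∃ x z : ℝ, Rep y m.1 x ∧ Rep y m.2 z ∧ x ≤ z + k := by
  obtain ⟨u, v, h1, h2, h3⟩ := h
  exact ⟨_, _, ⟨u, h1, rfl⟩, ⟨v, h2, rfl⟩, h3⟩

theorem FactOK.zero (y : Pt) (k : ℕ) : FactOK y k (0, 0) :=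
  FactOK.of_rep (Rep.zero y) (Rep.zero y) (by positivity)

theorem BB_pos : 0 < BB := by decide

theorem cmpD_sound : ∀ (n : ℕ) (u v : ℕ → ℕ) (s t : ℕ), (∀ i < n, u i < BB) →
    (∀ i < n, v i < BB) → cmpD n (∑ i ∈ range n, u i * BB ^ i + s * BB ^ n)
      (∑ i ∈ range n, v i * BB ^ i + t * BB ^ n) = true → ∀ i < n, u i ≤ v i
  | 0, _, _, _, _, _, _, _ => fun i hi => by omega
  | n + 1, u, v, s, t, hu, hv, h => by
    have key : ∀ (w : ℕ → ℕ) (z : ℕ), ∑ i ∈ range (n + 1), w i * BB ^ i + z * BB ^ (n + 1) =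
        w 0 + BB * (∑ i ∈ range n, w (i + 1) * BB ^ i + z * BB ^ n) := by
      intro w z
      rw [sum_range_succ', mul_add, mul_sum]
      have : ∑ i ∈ range n, w (i + 1) * BB ^ (i + 1) = ∑ i ∈ range n, BB * (w (i + 1) * BB ^ i) :=
        sum_congr rfl fun i _ => by ring
      rw [this]
      ring
    have u0 := hu 0 (by omega)
    have v0 := hv 0 (by omega)
    rw [cmpD, key u s, key v t, Nat.add_mul_mod_self_left, Nat.add_mul_mod_self_left,
      Nat.add_mul_div_left _ _ BB_pos, Nat.add_mul_div_left _ _ BB_pos, Nat.mod_eq_of_lt u0,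
      Nat.mod_eq_of_lt v0, Nat.div_eq_of_lt u0, Nat.div_eq_of_lt v0, zero_add, zero_add,
      Bool.and_eq_true, Nat.ble_eq] at h
    have ih := cmpD_sound n (fun i => u (i + 1)) (fun i => v (i + 1)) s t
      (fun i hi => hu _ (by omega)) (fun i hi => hv _ (by omega)) h.2
    intro i hi
    cases i with
    | zero => exact h.1
    | succ i => exact ih i (by omega)

theorem BB_eq : BB = 2 ^ 64 := by decide

theorem cd_eq (u : ℕ → ℕ) :
    cd u = ∑ i ∈ range 160, u i * BB ^ i + (∑ i ∈ range 160, u i) * BB ^ 160 := by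
  rw [cd, sum_mul, ← sum_add_distrib]
  refine sum_congr rfl fun i _ => ?_
  rw [wcode, BB_eq, ← pow_mul, ← pow_mul, mul_add]

theorem lt_BB_of_cd {u : ℕ → ℕ} (h : cd u < 2 ^ 10304) : ∀ i < 160, u i < BB := by
  intro i hi
  have h1 : (2 : ℕ) ^ 10304 = BB * BB ^ 160 := by
    rw [← pow_succ', BB_eq, ← pow_mul]
  rw [cd_eq, h1] at h
  have h2 : (∑ i ∈ range 160, u i) * BB ^ 160 < BB * BB ^ 160 :=
    lt_of_le_of_lt (Nat.le_add_left _ _) h
  exact lt_of_le_of_lt (single_le_sum (f := u) (fun _ _ => Nat.zero_le _) (mem_range.2 hi))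
    (Nat.lt_of_mul_lt_mul_right h2)

theorem dom_sound {y : Pt} {a b : ℕ} {x z : ℝ} (ha : Rep y a x) (hb : Rep y b z)
    (h : dom a b = true) : x ≤ z := by
  obtain ⟨u, e1, e2⟩ := ha
  obtain ⟨v, e3, e4⟩ := hb
  rw [e1, e3] at h
  rw [← e2, ← e4]
  simp only [dom, Bool.and_eq_true, Nat.blt_eq] at h
  obtain ⟨⟨h1, h2⟩, h3⟩ := h
  rw [cd_eq, cd_eq] at h3
  have := cmpD_sound 160 u v _ _ (lt_BB_of_cd h1) (lt_BB_of_cd h2) h3
  exact sum_le_sum fun i hi => mul_le_mul_of_nonneg_right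
    (by exact_mod_cast this i (mem_range.1 hi)) (log_nonneg' y i)

/-- A sum of facts is a fact. -/
def SumOK (y : Pt) (s : ℕ × ℕ × ℕ) : Prop := FactOK y s.2.2 (s.1, s.2.1)

theorem SumOK.zero (y : Pt) : SumOK y (0, 0, 0) := FactOK.zero y 0

theorem SumOK.acc {y : Pt} {s : ℕ × ℕ × ℕ} {f : ℕ × ℕ} (hf : FactOK y 1 f) (hs : SumOK y s)
    (m : ℕ) : SumOK y (acc m f s) := by
  obtain ⟨x, z, h1, h2, h3⟩ := hf.rep
  obtain ⟨x', z', h1', h2', h3'⟩ := FactOK.rep hs
  refine FactOK.of_rep ((h1.smul m).add h1') ((h2.smul m).add h2') ?_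
  have := mul_le_mul_of_nonneg_left h3 (Nat.cast_nonneg (α := ℝ) m)
  simp only [Cnt.acc]
  push_cast at this ⊢
  linarith

theorem sumP_ok {y : Pt} {G : ℕ → ℕ × ℕ} (hG : ∀ k, FactOK y 1 (G k)) {s : ℕ × ℕ × ℕ}
    (hs : SumOK y s) : ∀ ms : List (ℕ × ℕ), SumOK y (sumP G ms s)
  | [] => hs
  | x :: ms => (sumP_ok hG hs ms).acc (hG x.1) _

theorem sumL_ok {y : Pt} (w : ℕ) {s : ℕ × ℕ × ℕ} (hs : SumOK y s) :
    ∀ (F : List (ℕ × ℕ)) (n : ℕ), (∀ m ∈ F, FactOK y 1 m) → SumOK y (sumL w F n s)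
  | [], _, _ => hs
  | f :: F, n, h => by
    have h' : ∀ m ∈ F, FactOK y 1 m := fun m hm => h m (List.mem_cons_of_mem _ hm)
    rw [sumL]
    cases Nat.beq n 0
    · cases Nat.beq (n % 256) 0
      · exact sumL_ok w hs F _ h'
      · exact (sumL_ok w hs F _ h').acc (h f List.mem_cons_self) _
    · exact hs

theorem sumG_ok {y : Pt} {G : ℕ → ℕ × ℕ} (hG : ∀ k, FactOK y 1 (G k)) (w : ℕ)
    {s : ℕ × ℕ × ℕ} (hs : SumOK y s) : ∀ k n : ℕ, SumOK y (sumG G w k n s)
  | 0, _ => hs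
  | k + 1, n => by
    rw [sumG]
    cases Nat.beq n 0
    · exact (sumG_ok hG w hs k _).acc (hG _) _
    · exact hs

theorem farkas_sound {S : Mono} {q r : ℕ} {s : ℕ × ℕ × ℕ} (h : farkas S q r s = true)
    (hS : lowM S = true) {y : Pt} (hs : SumOK y s) :
    q * lg y S ≤ r * Real.log (y 0) + s.2.2 := by
  obtain ⟨x, z, h1, h2, h3⟩ := FactOK.rep hs
  have := dom_sound ((((Rep.code y hS).smul q)).add h2)
    (((Rep.var y (i := 0) (by norm_num)).smul r).add h1) h
  linarith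

theorem okM_iff {c : Ctx} {M : Mono} :
    okM c M = true ↔ allB c.N M = true ∧ lowM M = true := by
  simp only [okM, allB, lowM, List.all_eq_true, Bool.and_eq_true]
  exact ⟨fun h => ⟨fun i hi => (h i hi).1, fun i hi => (h i hi).2⟩,
    fun h i hi => ⟨h.1 i hi, h.2 i hi⟩⟩

variable {R : ℕ → Option Rel} {c : Ctx}

theorem leaf_inv {A : Set Pt} {S : Mono} {q r m : ℕ} {e : Bool} (hA : ∀ y ∈ A, c.Holds y)
    (hS : allB c.N S = true) (hq : r + (if e then q else 0) < 2 * q)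
    (h : ∀ y ∈ A, q * lg y S ≤ r * Real.log (y 0) + m) :
    Inv A (insL 0 S) (if e then 2 else 0) := by
  have hq0 : 0 < q := by omega
  have hq0' : (0 : ℝ) < q := by exact_mod_cast hq0
  have hT : ∀ y ∈ A, (ev y S : ℝ) ≤ Real.exp (m / q) * (y 0 : ℝ) ^ ((r : ℝ) / q) := by
    intro y hy
    have h1 := h y hy
    have h2 : ev y S ≠ 0 := (hA y hy).ev_ne hS
    have h3 : (0 : ℝ) < ev y S := by exact_mod_cast Nat.pos_of_ne_zero h2
    have h4 : (0 : ℝ) < y 0 := by exact_mod_cast (hA y hy).prime.pos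
    rw [← log_ev h2] at h1
    rw [Real.rpow_def_of_pos h4, ← Real.exp_add, ← Real.exp_log h3, Real.exp_le_exp]
    have : (m : ℝ) / q + Real.log (y 0) * (r / q) = (r * Real.log (y 0) + m) / q := by
      field_simp
      ring
    rw [this, le_div_iff₀ hq0']
    linarith
  have hr2 : (r : ℝ) / q ≤ 2 := by
    rw [div_le_iff₀ hq0']
    have : r ≤ 2 * q := by omega
    exact_mod_cast this
  have hB : Bd (A) (fun y => ev y S) := by
    refine ⟨⌈Real.exp (m / q)⌉₊, 2, fun y hy => ?_⟩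
    have h4 : (1 : ℝ) ≤ y 0 := by exact_mod_cast (hA y hy).prime.pos
    have e1 : (y 0 : ℝ) ^ ((r : ℝ) / q) ≤ (y 0 : ℝ) ^ (2 : ℝ) :=
      Real.rpow_le_rpow_of_exponent_le h4 hr2
    have e2 : (y 0 : ℝ) ^ (2 : ℝ) ≤ ((y 0 : ℝ) + 1) ^ 2 := by
      rw [Real.rpow_two]
      nlinarith
    have e3 : (ev y S : ℝ) ≤ (⌈Real.exp (m / q)⌉₊ : ℝ) * ((y 0 : ℝ) + 1) ^ 2 :=
      (hT y hy).trans (mul_le_mul (Nat.le_ceil _) (e1.trans e2) (by positivity) (by positivity))
    exact_mod_cast e3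
  have hF : Few (A) (fun y => (ev y S, if e then cl y 1 else 0)) := by
    refine Few.start (a := (r : ℝ) / q) (b := if e then 1 else 0) (by positivity)
      (by split_ifs <;> norm_num) ?_ (Real.exp_pos _).le hT fun y hy => ?_
    · cases e
      · simp only [Bool.false_eq_true, if_false, add_zero] at hq ⊢
        rw [div_lt_iff₀ hq0']
        exact_mod_cast hq
      · simp only [if_true] at hq ⊢
        have : (r : ℝ) / q < 1 := by
          rw [div_lt_one hq0']
          have : r < q := by omega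
          exact_mod_cast this
        linarith
    · cases e
      · simp
      · simp only [if_true, Real.rpow_one]
        exact_mod_cast (Nat.mod_lt _ (hA y hy).prime.pos).le
  refine Inv.add_div (T := fun y => ev y S) (fun i hi => by simp at hi)
    (hF.of_det fun y _ y' _ h => ?_) hB (fun y hy => (hA y hy).ev_ne hS) (fun y _ i hi => dvd_ev hi)
  have e1 : ev y S = ev y' S := congrArg Prod.fst h
  have e2 : (if e then cl y 1 else 0) = if e then cl y' 1 else 0 := congrArg Prod.snd h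
  refine Prod.ext (obs_eq_iff.2 ⟨fun i hi => by simp at hi, fun i hi => ?_⟩) e1
  cases e
  · simp at hi
  · simp only [if_true] at hi e2
    have : (2 ^ 1).testBit i = true := hi
    rw [Nat.testBit_two_pow, decide_eq_true_iff] at this
    rw [← this]
    exact e2

theorem start_sound {A : Set Pt} {S : Mono} {q r m : ℕ} {e : Bool} {ds : List Step}
    (hA : ∀ y ∈ A, y ∈ Pts R c) (h : start R c S q r e ds = true)
    (hm : lowM S = true → ∀ y ∈ A, q * lg y S ≤ r * Real.log (y 0) + m) : Few A tgt := by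
  simp only [start, Bool.and_eq_true, Nat.blt_eq, okM_iff] at h
  exact run_sound hA ds _ _ h.2 (leaf_inv (fun y hy => (hA y hy).2) h.1.1.1 h.1.2 (hm h.1.1.2))

theorem pow_dvd_ev {y : Pt} : ∀ {D : Mono}, (∀ i ∈ D, y 0 ∣ y i) → y 0 ^ D.length ∣ ev y D
  | [], _ => by simp
  | i :: D, h => by
    rw [List.length_cons, pow_succ', ev_cons]
    exact Nat.mul_dvd_mul (h i List.mem_cons_self)
      (pow_dvd_ev fun j hj => h j (List.mem_cons_of_mem _ hj))

theorem leaf_invD {A : Set Pt} {S D : Mono} {q r m : ℕ} {e : Bool} (hA : ∀ y ∈ A, c.Holds y)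
    (hS : allB c.N (S ++ D) = true) (hD : allB c.P D = true) (hq0 : 0 < q)
    (hq : r + q + (if e then q else 0) < 2 * q + q * D.length)
    (h : ∀ y ∈ A, q * lg y (S ++ D) ≤ r * Real.log (y 0) + m) :
    Inv A (insL 0 (0 :: (S ++ D))) (if e then 2 else 0) := by
  have hq0' : (0 : ℝ) < q := by exact_mod_cast hq0
  set n := D.length with hn
  have hE : ∀ y ∈ A, (ev y (S ++ D) : ℝ) ≤ Real.exp (m / q) * (y 0 : ℝ) ^ ((r : ℝ) / q) := by
    intro y hy
    have h1 := h y hy
    have h2 : ev y (S ++ D) ≠ 0 := (hA y hy).ev_ne hS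
    have h3 : (0 : ℝ) < ev y (S ++ D) := by exact_mod_cast Nat.pos_of_ne_zero h2
    have h4 : (0 : ℝ) < y 0 := by exact_mod_cast (hA y hy).prime.pos
    rw [← log_ev h2] at h1
    rw [Real.rpow_def_of_pos h4, ← Real.exp_add, ← Real.exp_log h3, Real.exp_le_exp]
    have : (m : ℝ) / q + Real.log (y 0) * (r / q) = (r * Real.log (y 0) + m) / q := by
      field_simp
      ring
    rw [this, le_div_iff₀ hq0']
    linarith
  have hB0 : Bd A (fun y => y 0) := ⟨1, 1, fun y _ => by simp⟩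
  have hB : Bd A (fun y => ev y (S ++ D)) := by
    refine ⟨⌈Real.exp (m / q)⌉₊, r, fun y hy => ?_⟩
    have h4 : (1 : ℝ) ≤ y 0 := by exact_mod_cast (hA y hy).prime.pos
    have e0 : (r : ℝ) / q ≤ r := div_le_self (by positivity) (by exact_mod_cast hq0)
    have e1 : (y 0 : ℝ) ^ ((r : ℝ) / q) ≤ (y 0 : ℝ) ^ (r : ℝ) :=
      Real.rpow_le_rpow_of_exponent_le h4 e0
    have e2 : (y 0 : ℝ) ^ (r : ℝ) ≤ ((y 0 : ℝ) + 1) ^ r := by
      rw [Real.rpow_natCast]
      exact pow_le_pow_left₀ (by positivity) (by linarith) r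
    have e3 : (ev y (S ++ D) : ℝ) ≤ (⌈Real.exp (m / q)⌉₊ : ℝ) * ((y 0 : ℝ) + 1) ^ r :=
      (hE y hy).trans (mul_le_mul (Nat.le_ceil _) (e1.trans e2) (by positivity) (by positivity))
    exact_mod_cast e3
  have hW : ∀ y ∈ A, ev y (S ++ D) / y 0 ^ n * y 0 ^ n = ev y (S ++ D) := by
    intro y hy
    refine Nat.div_mul_cancel ?_
    rw [ev_append]
    exact (pow_dvd_ev fun i hi => (hA y hy).p i (allB_iff.1 hD i hi)).mul_left _
  have hF : Few A (fun y => (y 0 * (ev y (S ++ D) / y 0 ^ n), if e then cl y 1 else 0)) := by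
    refine Few.start (a := max 0 (1 + (r : ℝ) / q - n)) (b := if e then 1 else 0)
      (C := Real.exp (m / q)) (le_max_left _ _) (by split_ifs <;> norm_num) ?_
      (Real.exp_pos _).le (fun y hy => ?_) fun y hy => ?_
    · have h1 : (1 + (r : ℝ) / q - n) + (if e then 1 else 0) < 2 := by
        have h2 : ((r + q + (if e then q else 0) : ℕ) : ℝ) < ((2 * q + q * n : ℕ) : ℝ) := by
          exact_mod_cast hq
        have h3 : (r : ℝ) / q < 1 + n - (if e then 1 else 0) := by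
          rw [div_lt_iff₀ hq0']
          cases e
          · simp only [Bool.false_eq_true, if_false] at h2 ⊢
            push_cast at h2
            linarith
          · simp only [if_true] at h2 ⊢
            push_cast at h2
            linarith
        linarith
      rcases le_total 0 (1 + (r : ℝ) / q - n) with h0 | h0
      · rwa [max_eq_right h0]
      · rw [max_eq_left h0]
        split_ifs <;> norm_num
    · have h4 : (1 : ℝ) ≤ y 0 := by exact_mod_cast (hA y hy).prime.pos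
      have h5 : (0 : ℝ) < y 0 := by linarith
      have e1 : ((ev y (S ++ D) / y 0 ^ n : ℕ) : ℝ) * (y 0 : ℝ) ^ n = ev y (S ++ D) := by
        exact_mod_cast hW y hy
      have e2 : (y 0 : ℝ) ^ (1 + (r : ℝ) / q - n) * (y 0 : ℝ) ^ n
          = y 0 * (y 0 : ℝ) ^ ((r : ℝ) / q) := by
        rw [← Real.rpow_natCast, ← Real.rpow_add h5, sub_add_cancel, Real.rpow_add h5,
          Real.rpow_one]
      refine le_trans ?_ (mul_le_mul_of_nonneg_left
        (Real.rpow_le_rpow_of_exponent_le h4 (le_max_right _ _)) (Real.exp_pos _).le)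
      refine le_of_mul_le_mul_right ?_ (pow_pos h5 n)
      rw [Nat.cast_mul, mul_assoc, e1, mul_assoc, e2]
      have := mul_le_mul_of_nonneg_left (hE y hy) h5.le
      linarith
    · cases e
      · simp
      · simp only [if_true, Real.rpow_one]
        exact_mod_cast (Nat.mod_lt _ (hA y hy).prime.pos).le
  have hne : ∀ y ∈ A, y 0 * ev y (S ++ D) ≠ 0 := fun y hy =>
    Nat.mul_ne_zero (hA y hy).prime.ne_zero ((hA y hy).ev_ne hS)
  have hF2 := hF.step (g := fun y => y 0)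
    (Sub.divisor (T := fun y => y 0 * (ev y (S ++ D) / y 0 ^ n))
      ((hB0.mul hB).of_le fun y _ => Nat.mul_le_mul_left _ (Nat.div_le_self _ _))
      (fun y hy h0 => hne y hy (by rw [← hW y hy, ← mul_assoc, h0, zero_mul]))
      (fun y _ y' _ h => congrArg Prod.fst h) (fun y _ => Dvd.intro _ rfl))
  refine Inv.add_div (T := fun y => y 0 * ev y (S ++ D)) (fun i hi => by simp at hi)
    (hF2.of_det fun y hy y' hy' h => ?_) (hB0.mul hB) hne (fun y _ i hi => ?_)
  · have e0 : y 0 = y' 0 := congrArg Prod.snd h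
    have e1 : y 0 * (ev y (S ++ D) / y 0 ^ n) = y' 0 * (ev y' (S ++ D) / y' 0 ^ n) :=
      congrArg (fun v => v.1.1) h
    have e2 : (if e then cl y 1 else 0) = if e then cl y' 1 else 0 := congrArg (fun v => v.1.2) h
    refine Prod.ext (obs_eq_iff.2 ⟨fun i hi => by simp at hi, fun i hi => ?_⟩) ?_
    · cases e
      · simp at hi
      · simp only [if_true] at hi e2
        have : (2 ^ 1).testBit i = true := hi
        rw [Nat.testBit_two_pow, decide_eq_true_iff] at this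
        rw [← this]
        exact e2
    · change y 0 * ev y (S ++ D) = y' 0 * ev y' (S ++ D)
      rw [← hW y hy, ← hW y' hy', ← mul_assoc, ← mul_assoc, e1, e0]
  · rw [← ev_cons]
    exact dvd_ev hi

theorem startD_sound {A : Set Pt} {S D : Mono} {q r m : ℕ} {e : Bool} {ds : List Step}
    (hA : ∀ y ∈ A, y ∈ Pts R c) (h : startD R c S D q r e ds = true)
    (hm : lowM (S ++ D) = true → ∀ y ∈ A, q * lg y (S ++ D) ≤ r * Real.log (y 0) + m) :
    Few A tgt := by
  simp only [startD, Bool.and_eq_true, Nat.blt_eq, okM_iff] at h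
  obtain ⟨⟨⟨⟨⟨h1, h2⟩, h3⟩, h4⟩, h5⟩, h6⟩ := h
  exact run_sound hA ds _ _ h6 (leaf_invD (fun y hy => (hA y hy).2) h1 h3 h4 h5 (hm h2))

theorem bounded_sound {A : Set Pt} {m : ℕ} (hA : ∀ y ∈ A, (y 0).Prime)
    (hm : ∀ y ∈ A, Real.log (y 0) ≤ m) : Few A tgt := by
  refine Few.start (a := 0) (b := 1) (C := Real.exp m) le_rfl zero_le_one (by norm_num)
    (Real.exp_pos _).le (fun y hy => ?_) fun y hy => ?_
  · have h4 : (0 : ℝ) < y 0 := by exact_mod_cast (hA y hy).pos
    rw [Real.rpow_zero, mul_one, ← Real.exp_log h4, Real.exp_le_exp]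
    exact hm y hy
  · rw [Real.rpow_one]
    exact_mod_cast (Nat.mod_lt _ (hA y hy).pos).le

end Pool.Agent.Lib.MP_755cca_al.Cnt
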