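import Mathlib
import Pool.Agent.Lib.SW.Div

/-!
# Counting values of functions on sets of points: the predicate `Few`

Points are maps `ℕ → ℕ`; the coordinate `0` is the size parameter (later a prime `p`).
`Few A f` says that `f` takes `O(X ^ θ)` values, for some `θ < 2`, on the points of `A` with
`y 0 ≤ X`.
-/

namespace Pool.Agent.Lib.MP_755cca_al.Cnt

open Finset

/-- Points: the values of the variables; variable `0` is the size parameter. -/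
abbrev Pt := ℕ → ℕ

/-- `f` takes `O(X ^ θ)` values, `θ < 2`, on the points of `A` with `y 0 ≤ X`. -/
def Few {α : Type} (A : Set Pt) (f : Pt → α) : Prop :=
  ∃ θ : ℝ, θ < 2 ∧ ∃ C : ℝ, 0 ≤ C ∧ ∀ X : ℕ, 1 ≤ X → ∃ F : Finset α,
    (#F : ℝ) ≤ C * (X : ℝ) ^ θ ∧ ∀ y ∈ A, y 0 ≤ X → f y ∈ F

/-- On each fibre of `f`, `g` takes `O(X ^ ε)` values. -/
def Sub {α β : Type} (A : Set Pt) (f : Pt → α) (g : Pt → β) : Prop :=
  ∀ ε : ℝ, 0 < ε → ∃ C : ℝ, 0 ≤ C ∧ ∀ X : ℕ, 1 ≤ X → ∀ y₀ ∈ A, y₀ 0 ≤ X → ∃ G : Finset β,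
    (#G : ℝ) ≤ C * (X : ℝ) ^ ε ∧ ∀ y ∈ A, f y = f y₀ → g y ∈ G

/-- `T` is polynomially bounded in `y 0` on `A`. -/
def Bd (A : Set Pt) (T : Pt → ℕ) : Prop := ∃ C k : ℕ, ∀ y ∈ A, T y ≤ C * (y 0 + 1) ^ k

variable {α β : Type} {A B : Set Pt} {f : Pt → α} {g : Pt → β}

theorem Few.of_empty (h : ∀ y, y ∉ A) : Few A f :=
  ⟨0, by norm_num, 0, le_rfl, fun _ _ => ⟨∅, by simp, fun y hy _ => (h y hy).elim⟩⟩

theorem Few.mono (h : Few A f) (hB : B ⊆ A) : Few B f := by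
  obtain ⟨θ, hθ, C, hC, H⟩ := h
  refine ⟨θ, hθ, C, hC, fun X hX => ?_⟩
  obtain ⟨F, h1, h2⟩ := H X hX
  exact ⟨F, h1, fun y hy => h2 y (hB hy)⟩

theorem Few.union (h : Few A f) (h' : Few B f) : Few (A ∪ B) f := by
  classical
  obtain ⟨θ, hθ, C, hC, H⟩ := h
  obtain ⟨θ', hθ', C', hC', H'⟩ := h'
  refine ⟨max θ θ', max_lt hθ hθ', C + C', by positivity, fun X hX => ?_⟩
  obtain ⟨F, h1, h2⟩ := H X hX
  obtain ⟨F', h1', h2'⟩ := H' X hX
  have hX1 : (1 : ℝ) ≤ X := by exact_mod_cast hX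
  have e1 : (X : ℝ) ^ θ ≤ (X : ℝ) ^ max θ θ' :=
    Real.rpow_le_rpow_of_exponent_le hX1 (le_max_left _ _)
  have e2 : (X : ℝ) ^ θ' ≤ (X : ℝ) ^ max θ θ' :=
    Real.rpow_le_rpow_of_exponent_le hX1 (le_max_right _ _)
  refine ⟨F ∪ F', ?_, ?_⟩
  · have : (#(F ∪ F') : ℝ) ≤ #F + #F' := by exact_mod_cast card_union_le F F'
    nlinarith [mul_le_mul_of_nonneg_left e1 hC, mul_le_mul_of_nonneg_left e2 hC']
  · rintro y (hy | hy) hyX
    · exact mem_union_left _ (h2 y hy hyX)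
    · exact mem_union_right _ (h2' y hy hyX)

theorem Few.cover {A A₁ A₂ : Set Pt} (h₁ : Few A₁ f) (h₂ : Few A₂ f)
    (h : ∀ y ∈ A, y ∈ A₁ ∨ y ∈ A₂) : Few A f :=
  (h₁.union h₂).mono h

theorem Few.map (h : Few A f) (φ : α → β) : Few A (fun y => φ (f y)) := by
  classical
  obtain ⟨θ, hθ, C, hC, H⟩ := h
  refine ⟨θ, hθ, C, hC, fun X hX => ?_⟩
  obtain ⟨F, h1, h2⟩ := H X hX
  refine ⟨F.image φ, le_trans ?_ h1, fun y hy hyX => mem_image_of_mem _ (h2 y hy hyX)⟩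
  exact_mod_cast card_image_le

theorem Few.step (h : Few A f) (hs : Sub A f g) : Few A (fun y => (f y, g y)) := by
  classical
  obtain ⟨θ, hθ, C, hC, H⟩ := h
  obtain ⟨D, hD, S⟩ := hs ((2 - θ) / 2) (by linarith)
  refine ⟨θ + (2 - θ) / 2, by linarith, C * D, by positivity, fun X hX => ?_⟩
  obtain ⟨F, h1, h2⟩ := H X hX
  have hX0 : (0 : ℝ) < X := by exact_mod_cast hX
  have key : ∀ v : α, ∃ G : Finset β, (#G : ℝ) ≤ D * (X : ℝ) ^ ((2 - θ) / 2) ∧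
      ∀ y ∈ A, y 0 ≤ X → f y = v → g y ∈ G := by
    intro v
    by_cases hv : ∃ y₀ ∈ A, y₀ 0 ≤ X ∧ f y₀ = v
    · obtain ⟨y₀, hy₀, hX₀, rfl⟩ := hv
      obtain ⟨G, g1, g2⟩ := S X hX y₀ hy₀ hX₀
      exact ⟨G, g1, fun y hy _ e => g2 y hy e⟩
    · exact ⟨∅, by simp only [card_empty, Nat.cast_zero]; positivity,
        fun y hy hyX e => (hv ⟨y, hy, hyX, e⟩).elim⟩
  choose G G1 G2 using key
  refine ⟨F.biUnion (fun v => (G v).image (fun w => (v, w))), ?_, fun y hy hyX => ?_⟩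
  · have e1 : (#(F.biUnion (fun v => (G v).image (fun w => (v, w)))) : ℝ)
        ≤ ∑ v ∈ F, (#((G v).image (fun w => (v, w))) : ℝ) := by
      exact_mod_cast card_biUnion_le
    have e2 : ∑ v ∈ F, (#((G v).image (fun w => (v, w))) : ℝ)
        ≤ ∑ _v ∈ F, D * (X : ℝ) ^ ((2 - θ) / 2) := by
      refine sum_le_sum fun v _ => le_trans ?_ (G1 v)
      exact_mod_cast card_image_le
    rw [sum_const, nsmul_eq_mul] at e2
    have e3 : (#F : ℝ) * (D * (X : ℝ) ^ ((2 - θ) / 2))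
        ≤ (C * (X : ℝ) ^ θ) * (D * (X : ℝ) ^ ((2 - θ) / 2)) :=
      mul_le_mul_of_nonneg_right h1 (by positivity)
    rw [Real.rpow_add hX0]
    calc _ ≤ _ := e1
      _ ≤ _ := e2
      _ ≤ _ := e3
      _ = _ := by ring
  · exact mem_biUnion.2 ⟨f y, h2 y hy hyX, mem_image_of_mem _ (G2 _ y hy hyX rfl)⟩

theorem Sub.of_card (n : ℕ) (h : ∀ y₀ ∈ A, ∃ G : Finset β, #G ≤ n ∧
    ∀ y ∈ A, f y = f y₀ → g y ∈ G) : Sub A f g := by
  intro ε hε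
  refine ⟨n, by positivity, fun X hX y₀ hy₀ _ => ?_⟩
  obtain ⟨G, g1, g2⟩ := h y₀ hy₀
  refine ⟨G, ?_, g2⟩
  have hX1 : (1 : ℝ) ≤ X := by exact_mod_cast hX
  have e1 : (1 : ℝ) ≤ (X : ℝ) ^ ε := Real.one_le_rpow hX1 hε.le
  have e2 : (#G : ℝ) ≤ n := by exact_mod_cast g1
  have e3 : (0 : ℝ) ≤ n := by positivity
  nlinarith

/-- A function determined by `f` takes few values. -/
theorem Few.of_det (h : Few A f) (hd : ∀ y ∈ A, ∀ y' ∈ A, f y = f y' → g y = g y') :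
    Few A g :=
  (h.step (g := g) (Sub.of_card 1 fun y₀ hy₀ =>
    ⟨{g y₀}, by simp, fun y hy e => by simp [hd y hy y₀ hy₀ e]⟩)).map Prod.snd

/-- Two candidates. -/
theorem Few.two (h : Few A f) (u v : Pt → β)
    (hd : ∀ y₀ ∈ A, ∀ y ∈ A, f y = f y₀ → g y = u y₀ ∨ g y = v y₀) :
    Few A (fun y => (f y, g y)) := by
  classical
  refine h.step (Sub.of_card 2 fun y₀ hy₀ => ⟨{u y₀, v y₀}, card_le_two, fun y hy e => ?_⟩)
  simpa using hd y₀ hy₀ y hy e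

theorem Bd.of_le {T U : Pt → ℕ} (h : Bd A T) (hU : ∀ y ∈ A, U y ≤ T y) : Bd A U := by
  obtain ⟨C, k, H⟩ := h
  exact ⟨C, k, fun y hy => (hU y hy).trans (H y hy)⟩

theorem Bd.const (c : ℕ) : Bd A (fun _ => c) := ⟨c, 0, fun _ _ => by simp⟩

theorem Bd.mul {T U : Pt → ℕ} (h : Bd A T) (h' : Bd A U) : Bd A (fun y => T y * U y) := by
  obtain ⟨C, k, H⟩ := h
  obtain ⟨C', k', H'⟩ := h'
  refine ⟨C * C', k + k', fun y hy => ?_⟩
  calc T y * U y ≤ (C * (y 0 + 1) ^ k) * (C' * (y 0 + 1) ^ k') :=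
        Nat.mul_le_mul (H y hy) (H' y hy)
    _ = _ := by ring

theorem Bd.add {T U : Pt → ℕ} (h : Bd A T) (h' : Bd A U) : Bd A (fun y => T y + U y) := by
  obtain ⟨C, k, H⟩ := h
  obtain ⟨C', k', H'⟩ := h'
  refine ⟨C + C', k + k', fun y hy => ?_⟩
  have e1 : (y 0 + 1) ^ k ≤ (y 0 + 1) ^ (k + k') := Nat.pow_le_pow_right (by omega) (by omega)
  have e2 : (y 0 + 1) ^ k' ≤ (y 0 + 1) ^ (k + k') := Nat.pow_le_pow_right (by omega) (by omega)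
  have := H y hy
  have := H' y hy
  nlinarith [Nat.mul_le_mul_left C e1, Nat.mul_le_mul_left C' e2]

/-- A divisor of a determined, nonzero, polynomially bounded number. -/
theorem Sub.divisor {T g : Pt → ℕ} (hT : Bd A T) (h0 : ∀ y ∈ A, T y ≠ 0)
    (hd : ∀ y ∈ A, ∀ y' ∈ A, f y = f y' → T y = T y') (hg : ∀ y ∈ A, g y ∣ T y) :
    Sub A f g := by
  intro ε hε
  obtain ⟨C, k, H⟩ := hT
  have hk : (0 : ℝ) < k + 1 := by positivity
  obtain ⟨D, hD, HD⟩ := Pool.Agent.Lib.SW.divisor_bound (ε := ε / (k + 1)) (by positivity)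
  refine ⟨D * ((C : ℝ) * 2 ^ k) ^ (ε / (k + 1)), by positivity, fun X hX y₀ hy₀ hX₀ => ?_⟩
  refine ⟨(T y₀).divisors, ?_, fun y hy e => ?_⟩
  · have hX1 : (1 : ℝ) ≤ X := by exact_mod_cast hX
    have e1 : T y₀ ≤ C * 2 ^ k * X ^ (k + 1) := by
      calc T y₀ ≤ C * (y₀ 0 + 1) ^ k := H y₀ hy₀
        _ ≤ C * (2 * X) ^ k := Nat.mul_le_mul_left _ (Nat.pow_le_pow_left (by omega) _)
        _ = C * 2 ^ k * X ^ k := by ring
        _ ≤ _ := Nat.mul_le_mul_left _ (Nat.pow_le_pow_right hX (by omega))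
    have e2 : (T y₀ : ℝ) ≤ (C : ℝ) * 2 ^ k * (X : ℝ) ^ (k + 1) := by exact_mod_cast e1
    have e3 : (T y₀ : ℝ) ^ (ε / (k + 1))
        ≤ ((C : ℝ) * 2 ^ k * (X : ℝ) ^ (k + 1)) ^ (ε / (k + 1)) :=
      Real.rpow_le_rpow (by positivity) e2 (by positivity)
    have e4 : ((X : ℝ) ^ (k + 1)) ^ (ε / (k + 1)) = (X : ℝ) ^ ε := by
      rw [← Real.rpow_natCast, ← Real.rpow_mul (by positivity)]
      congr 1
      push_cast
      field_simp
    rw [Real.mul_rpow (by positivity) (by positivity), e4] at e3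
    calc _ ≤ _ := HD (T y₀)
      _ ≤ D * (((C : ℝ) * 2 ^ k) ^ (ε / (k + 1)) * (X : ℝ) ^ ε) :=
        mul_le_mul_of_nonneg_left e3 (by linarith)
      _ = _ := by ring
  · rw [← hd y hy y₀ hy₀ e]
    exact Nat.mem_divisors.2 ⟨hg y hy, h0 y hy⟩

/-- All variables of a list dividing a determined number are determined up to divisors. -/
theorem Few.divisors {T : Pt → ℕ} (h : Few A f) (hT : Bd A T) (h0 : ∀ y ∈ A, T y ≠ 0)
    (hd : ∀ y ∈ A, ∀ y' ∈ A, f y = f y' → T y = T y') :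
    ∀ c : List ℕ, (∀ y ∈ A, ∀ i ∈ c, y i ∣ T y) → Few A (fun y => (f y, c.map y))
  | [], _ => h.map (fun v => (v, []))
  | i :: c, hc => by
    have h1 := Few.divisors h hT h0 hd c fun y hy j hj => hc y hy j (List.mem_cons_of_mem _ hj)
    have h2 := h1.step (g := fun y => y i) (Sub.divisor hT h0
      (fun y hy y' hy' e => hd y hy y' hy' (congrArg Prod.fst e))
      (fun y hy => hc y hy i List.mem_cons_self))
    exact h2.map (fun v => (v.1.1, v.2 :: v.1.2))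

/-- Two numbers of sizes `X ^ a`, `X ^ b` with `a + b < 2`. -/
theorem Few.start {T U : Pt → ℕ} {a b C : ℝ} (ha : 0 ≤ a) (hb : 0 ≤ b) (hab : a + b < 2)
    (hC : 0 ≤ C) (hT : ∀ y ∈ A, (T y : ℝ) ≤ C * (y 0 : ℝ) ^ a)
    (hU : ∀ y ∈ A, (U y : ℝ) ≤ (y 0 : ℝ) ^ b) : Few A (fun y => (T y, U y)) := by
  refine ⟨a + b, hab, (C + 1) * 2, by positivity, fun X hX => ?_⟩
  have hX1 : (1 : ℝ) ≤ X := by exact_mod_cast hX
  have hX0 : (0 : ℝ) < X := by linarith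
  have a1 : (1 : ℝ) ≤ (X : ℝ) ^ a := Real.one_le_rpow hX1 ha
  have b1 : (1 : ℝ) ≤ (X : ℝ) ^ b := Real.one_le_rpow hX1 hb
  refine ⟨range (⌊C * (X : ℝ) ^ a⌋₊ + 1) ×ˢ range (⌊(X : ℝ) ^ b⌋₊ + 1), ?_, fun y hy hyX => ?_⟩
  · rw [card_product, card_range, card_range, Real.rpow_add hX0]
    push_cast
    have e1 : (⌊C * (X : ℝ) ^ a⌋₊ : ℝ) ≤ C * (X : ℝ) ^ a := Nat.floor_le (by positivity)
    have e2 : (⌊(X : ℝ) ^ b⌋₊ : ℝ) ≤ (X : ℝ) ^ b := Nat.floor_le (by positivity)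
    calc _ ≤ ((C + 1) * (X : ℝ) ^ a) * (2 * (X : ℝ) ^ b) :=
          mul_le_mul (by linarith) (by linarith) (by positivity) (by positivity)
      _ = _ := by ring
  · have hyX' : (y 0 : ℝ) ≤ X := by exact_mod_cast hyX
    have e1 : (y 0 : ℝ) ^ a ≤ (X : ℝ) ^ a := Real.rpow_le_rpow (by positivity) hyX' ha
    have e2 : (y 0 : ℝ) ^ b ≤ (X : ℝ) ^ b := Real.rpow_le_rpow (by positivity) hyX' hb
    refine mem_product.2 ⟨mem_range.2 (Nat.lt_succ_of_le (Nat.le_floor ?_)),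
      mem_range.2 (Nat.lt_succ_of_le (Nat.le_floor ?_))⟩
    · exact (hT y hy).trans (mul_le_mul_of_nonneg_left e1 hC)
    · exact (hU y hy).trans e2

end Pool.Agent.Lib.MP_755cca_al.Cnt
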