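import Pool.Agent.Lib.MP_755cca_al.Cnt.Chk

/-!
# From few target values to a missed residue class
-/

namespace Pool.Agent.Lib.MP_755cca_al.Cnt

open Finset

theorem primes_lower {δ : ℝ} (hδ : 0 < δ) {X : ℕ} (hX : 100 ≤ X) :
    δ / 4 * (X : ℝ) ^ (1 - δ) ≤ #(Nat.primesLE X) := by
  rw [Nat.primesLE_card_eq_primeCounting]
  refine le_trans ?_ (Chebyshev.pi_ge X)
  have hX' : (100 : ℝ) ≤ X := by exact_mod_cast hX
  have h0 : (0 : ℝ) < X := by linarith
  have hl : 0 < Real.log X := Real.log_pos (by linarith)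
  have h1 : Real.log X ≤ (X : ℝ) ^ δ / δ := Real.log_le_rpow_div h0.le hδ
  have h2 : Real.log (X + 1) ≤ X / 4 := by
    have a1 : Real.log (X + 1) ≤ ((X : ℝ) + 1) ^ (1 / 2 : ℝ) / (1 / 2) :=
      Real.log_le_rpow_div (by linarith) (by norm_num)
    have a2 : ((X : ℝ) + 1) ^ (1 / 2 : ℝ) ≤ X / 8 := by
      rw [← Real.sqrt_eq_rpow, Real.sqrt_le_iff]
      constructor
      · linarith
      · nlinarith
    linarith
  have h3 := Real.log_two_gt_d9
  have h4 : (X : ℝ) / 4 ≤ X * Real.log 2 - Real.log (X + 1) := by nlinarith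
  rw [le_div_iff₀ hl]
  refine le_trans ?_ h4
  have h5 : (X : ℝ) ^ (1 - δ) * (X : ℝ) ^ δ = X := by
    rw [← Real.rpow_add h0]
    simp
  calc δ / 4 * (X : ℝ) ^ (1 - δ) * Real.log X
      ≤ δ / 4 * (X : ℝ) ^ (1 - δ) * ((X : ℝ) ^ δ / δ) :=
        mul_le_mul_of_nonneg_left h1 (by positivity)
    _ = ((X : ℝ) ^ (1 - δ) * (X : ℝ) ^ δ) / 4 := by field_simp
    _ = X / 4 := by rw [h5]

theorem eq_or_of_sq_mod {p a b : ℕ} (hp : p.Prime) (ha : a < p) (hb : b < p) (hb0 : 0 < b)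
    (h : a ^ 2 % p = b ^ 2 % p) : a = b ∨ a = p - b := by
  have : Fact p.Prime := ⟨hp⟩
  have h1 : (a : ZMod p) ^ 2 = (b : ZMod p) ^ 2 := by
    have := (ZMod.natCast_eq_natCast_iff' (a ^ 2) (b ^ 2) p).2 h
    exact_mod_cast this
  rcases sq_eq_sq_iff_eq_or_eq_neg.1 h1 with h2 | h2
  · left
    have := (ZMod.natCast_eq_natCast_iff' a b p).1 h2
    rwa [Nat.mod_eq_of_lt ha, Nat.mod_eq_of_lt hb] at this
  · right
    have h3 : (a : ZMod p) = ((p - b : ℕ) : ZMod p) := by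
      rw [Nat.cast_sub hb.le, h2]
      simp
    have := (ZMod.natCast_eq_natCast_iff' a (p - b) p).1 h3
    rwa [Nat.mod_eq_of_lt ha, Nat.mod_eq_of_lt (by omega)] at this

/-- If the target takes few values on `A`, some nonzero class modulo some prime is missed. -/
theorem exists_missed {A : Set Pt} (h : Few A tgt) : ∃ p a : ℕ, p.Prime ∧ 0 < a ∧ a < p ∧
    ∀ y ∈ A, y 0 = p → y 1 ^ 2 % p ≠ a ^ 2 % p := by
  classical
  by_contra hcon
  push Not at hcon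
  obtain ⟨θ, hθ, C, hC, H⟩ := h
  set δ : ℝ := min ((2 - θ) / 4) (1 / 2) with hδ
  have hδ0 : 0 < δ := lt_min (by linarith) (by norm_num)
  have hδ1 : δ ≤ (2 - θ) / 4 := min_le_left _ _
  have hδ2 : δ ≤ 1 / 2 := min_le_right _ _
  have key : ∀ X : ℕ, 100 ≤ X → (X : ℝ) ^ (2 * δ) ≤ 8 * C * (4 / δ) ^ 2 := by
    intro X hX
    obtain ⟨F, h1, h2⟩ := H X (by omega)
    set P := Nat.primesLE X with hP
    set W := {x ∈ P ×ˢ P | x.1 < x.2} with hW
    have hWc : #W = (#P).choose 2 := card_product_filter_lt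
    have hmem : ∀ x ∈ W, x.1.Prime ∧ x.2.Prime ∧ x.1 < x.2 ∧ x.2 ≤ X := by
      intro x hx
      simp only [hW, hP, mem_filter, mem_product, Nat.mem_primesLE] at hx
      exact ⟨hx.1.1.2, hx.1.2.2, hx.2, hx.1.2.1⟩
    have hle : #W ≤ 2 * #F := by
      refine card_le_mul_card_image_of_maps_to (f := fun x : ℕ × ℕ => (x.2, x.1 ^ 2 % x.2))
        (fun x hx => ?_) 2 (fun v _ => ?_)
      · obtain ⟨a1, a2, a3, a4⟩ := hmem x hx
        obtain ⟨y, hy, e0, e1⟩ := hcon x.2 x.1 a2 a1.pos a3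
        have := h2 y hy (by omega)
        rwa [tgt, cl, e0, e1] at this
      · rcases eq_empty_or_nonempty {x ∈ W | (x.2, x.1 ^ 2 % x.2) = v} with he | ⟨x₀, hx₀⟩
        · simp [he]
        · refine le_trans (card_le_card (t := {x₀, (x₀.2 - x₀.1, x₀.2)}) fun x hx => ?_)
            card_le_two
          rw [mem_filter] at hx hx₀
          obtain ⟨a1, a2, a3, a4⟩ := hmem x hx.1
          obtain ⟨b1, b2, b3, b4⟩ := hmem x₀ hx₀.1
          have e := hx.2.trans hx₀.2.symm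
          have e1 : x.2 = x₀.2 := congrArg Prod.fst e
          have e2 : x.1 ^ 2 % x.2 = x₀.1 ^ 2 % x₀.2 := congrArg Prod.snd e
          rw [e1] at e2 a3
          rw [mem_insert, mem_singleton]
          exact (eq_or_of_sq_mod b2 a3 b3 b1.pos e2).imp (fun h => Prod.ext h e1)
            (fun h => Prod.ext h e1)
    have hX' : (100 : ℝ) ≤ X := by exact_mod_cast hX
    have h0 : (0 : ℝ) < X := by linarith
    have hP2 : 2 ≤ #P := by
      refine le_trans (by decide : 2 ≤ #({2, 3} : Finset ℕ)) (card_le_card fun x hx => ?_)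
      simp only [mem_insert, mem_singleton] at hx
      rw [hP, Nat.mem_primesLE]
      rcases hx with rfl | rfl
      · exact ⟨by omega, Nat.prime_two⟩
      · exact ⟨by omega, Nat.prime_three⟩
    have e1 : ((#P : ℝ)) ^ 2 ≤ 8 * #F := by
      have a1 : ((#W : ℕ) : ℝ) = (#P : ℝ) * (#P - 1) / 2 := by rw [hWc, Nat.cast_choose_two]
      have a2 : ((#W : ℕ) : ℝ) ≤ 2 * #F := by exact_mod_cast hle
      have a3 : (2 : ℝ) ≤ #P := by exact_mod_cast hP2
      nlinarith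
    have e2 : (δ / 4 * (X : ℝ) ^ (1 - δ)) ^ 2 ≤ (#P : ℝ) ^ 2 :=
      pow_le_pow_left₀ (by positivity) (primes_lower hδ0 hX) 2
    have e3 : (X : ℝ) ^ θ ≤ (X : ℝ) ^ (2 - 4 * δ) :=
      Real.rpow_le_rpow_of_exponent_le (by linarith) (by linarith)
    have e4 : ((X : ℝ) ^ (1 - δ)) ^ 2 = (X : ℝ) ^ (2 * δ) * (X : ℝ) ^ (2 - 4 * δ) := by
      rw [sq, ← Real.rpow_add h0, ← Real.rpow_add h0]
      congr 1
      ring
    have e5 : (0 : ℝ) < (X : ℝ) ^ (2 - 4 * δ) := by positivity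
    rw [mul_pow, e4] at e2
    have e6 : (δ / 4) ^ 2 * (X : ℝ) ^ (2 * δ) * (X : ℝ) ^ (2 - 4 * δ)
        ≤ 8 * C * (X : ℝ) ^ (2 - 4 * δ) := by
      nlinarith [mul_le_mul_of_nonneg_left e3 hC]
    have e7 := le_of_mul_le_mul_right e6 e5
    have e8 : (X : ℝ) ^ (2 * δ) = (δ / 4) ^ 2 * (X : ℝ) ^ (2 * δ) * (4 / δ) ^ 2 := by
      field_simp
    rw [e8]
    exact mul_le_mul_of_nonneg_right e7 (by positivity)
  have ht : Filter.Tendsto (fun X : ℕ => (X : ℝ) ^ (2 * δ)) Filter.atTop Filter.atTop :=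
    (tendsto_rpow_atTop (by linarith)).comp tendsto_natCast_atTop_atTop
  obtain ⟨X, hX1, hX2⟩ :=
    ((ht.eventually_gt_atTop (8 * C * (4 / δ) ^ 2)).and (Filter.eventually_ge_atTop 100)).exists
  exact absurd (key X hX2) (not_le.2 hX1)

theorem ev_natAbs (x : ℕ → ℤ) : ∀ M : Mono, ev (fun i => (x i).natAbs) M = (evZ x M).natAbs
  | [] => rfl
  | i :: M => by
    rw [ev_cons, ev_natAbs x M]
    simp [evZ, Int.natAbs_mul]

theorem RelZ.relOK {x : ℕ → ℤ} {r : Rel} (h : RelZ x r) : RelOK (fun i => (x i).natAbs) r := by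
  unfold RelZ at h
  unfold RelOK Tri
  rw [ev_natAbs, ev_natAbs, ev_natAbs]
  omega

/-- Relations up to signs. -/
theorem relOK_of_signs {x : ℕ → ℤ} {r : Rel}
    (h : evZ x r.1 + evZ x r.2.1 = evZ x r.2.2 ∨ evZ x r.1 + evZ x r.2.2 = evZ x r.2.1 ∨
      evZ x r.2.1 + evZ x r.2.2 = evZ x r.1 ∨ evZ x r.1 + evZ x r.2.1 + evZ x r.2.2 = 0) :
    RelOK (fun i => (x i).natAbs) r := by
  unfold RelOK Tri
  rw [ev_natAbs, ev_natAbs, ev_natAbs]
  omega

theorem ctx0_holds {y : Pt} (hy : (y 0).Prime) : ctx0.Holds y := by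
  have h1 : ∀ i, (1 : ℕ).testBit i = true → i = 0 := fun i hi => by
    have : (2 ^ 0).testBit i = true := hi
    rw [Nat.testBit_two_pow, decide_eq_true_iff] at this
    exact this.symm
  refine ⟨hy, fun i hi => by simp [ctx0] at hi, fun i hi => ?_, fun i hi => ?_,
    fun i hi => by simp [ctx0] at hi, fun m hm => by simp [ctx0] at hm⟩
  · rw [h1 i hi]; exact hy.ne_zero
  · rw [h1 i hi]

/-- The final form: no integer point has `|x 0| = p` and `x 1 ≡ ± a` modulo `p`. -/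
theorem exists_missed_abs {R : ℕ → Option Rel} (h : Good R ctx0) :
    ∃ p a : ℕ, p.Prime ∧ 0 < a ∧ a < p ∧ ∀ x : ℕ → ℤ,
      (∀ k r, R k = some r → RelOK (fun i => (x i).natAbs) r) → (x 0).natAbs = p →
        ¬ (p : ℤ) ∣ x 1 - a ∧ ¬ (p : ℤ) ∣ x 1 + a := by
  obtain ⟨p, a, hp, h0, h1, H⟩ := exists_missed h
  refine ⟨p, a, hp, h0, h1, fun x hx h2 => ?_⟩
  have h3 := H (fun i => (x i).natAbs) ⟨hx, ctx0_holds (h2 ▸ hp)⟩ h2
  have h4 : ¬ (p : ℤ) ∣ (x 1 - a) * (x 1 + a) := by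
    intro hd
    apply h3
    have : ((x 1).natAbs ^ 2 : ℕ) ≡ a ^ 2 [MOD p] := by
      rw [Nat.modEq_iff_dvd]
      push_cast
      rw [sq_abs, ← dvd_neg, show -((a : ℤ) ^ 2 - x 1 ^ 2) = (x 1 - a) * (x 1 + a) by ring]
      exact hd
    exact this
  exact ⟨fun hd => h4 (hd.mul_right _), fun hd => h4 (hd.mul_left _)⟩

/-- The same with signed relations `T₁ + T₂ = T₃`. -/
theorem exists_missed_int {R : ℕ → Option Rel} (h : Good R ctx0) :
    ∃ p a : ℕ, p.Prime ∧ 0 < a ∧ a < p ∧ ∀ x : ℕ → ℤ,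
      (∀ k r, R k = some r → RelZ x r) → (x 0).natAbs = p →
        ¬ (p : ℤ) ∣ x 1 - a ∧ ¬ (p : ℤ) ∣ x 1 + a := by
  obtain ⟨p, a, hp, h0, h1, H⟩ := exists_missed_abs h
  exact ⟨p, a, hp, h0, h1, fun x hx => H x fun k r hk => (hx k r hk).relOK⟩

end Pool.Agent.Lib.MP_755cca_al.Cnt
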