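import Pool.Agent.Lib.MP_755cca_al.Cnt.Fin

/-!
# Batches of lemmas with arbitrary contexts
-/

namespace Pool.Agent.Lib.MP_755cca_al.Cnt

/-- Binary trees of contexts. -/
inductive CT where
  | nil
  | node (c : Ctx) (l h : CT)
  | join (l h : CT)

/-- Lookup: for `node` as in `RT.get`; for `join` even indices go left, odd ones right. -/
def CT.get : CT → ℕ → Option Ctx
  | .nil, _ => none
  | .node c l h, k =>
    cond (Nat.beq k 0) (some c) (cond (Nat.beq (k % 2) 1) (l.get (k / 2)) (h.get (k / 2 - 1)))
  | .join l h, k => cond (Nat.beq (k % 2) 0) (l.get (k / 2)) (h.get (k / 2))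

/-- All contexts of the tree are good. -/
def CT.AllGood (R : ℕ → Option Rel) (S : CT) : Prop := ∀ k c, S.get k = some c → Good R c

/-- The contexts with the given indices. -/
def CT.pick (S : CT) : List ℕ → List Ctx
  | [] => []
  | k :: ks =>
    match S.get k with
    | none => S.pick ks
    | some c => c :: S.pick ks

theorem CT.AllGood.pick {R : ℕ → Option Rel} {S : CT} (h : S.AllGood R) :
    ∀ ks : List ℕ, ∀ c ∈ S.pick ks, Good R c
  | [], c, hc => by simp [CT.pick] at hc
  | k :: ks, c, hc => by
    rw [CT.pick] at hc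
    cases hk : S.get k with
    | none => exact h.pick ks c (by simpa [hk] using hc)
    | some z =>
      simp only [hk, List.mem_cons] at hc
      rcases hc with rfl | hc
      · exact h k _ hk
      · exact h.pick ks c hc

theorem CT.AllGood.nil (R : ℕ → Option Rel) : CT.nil.AllGood R := fun _ _ h => by
  simp [CT.get] at h

theorem CT.AllGood.node {R : ℕ → Option Rel} {c : Ctx} {l h : CT} (hz : Good R c)
    (hl : l.AllGood R) (hh : h.AllGood R) : (CT.node c l h).AllGood R := by
  intro k z' hk
  rw [CT.get] at hk
  cases h0 : Nat.beq k 0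
  · cases h1 : Nat.beq (k % 2) 1
    · exact hh _ _ (by simpa [h0, h1] using hk)
    · exact hl _ _ (by simpa [h0, h1] using hk)
  · have : c = z' := by simpa [h0] using hk
    exact this ▸ hz

theorem CT.AllGood.join {R : ℕ → Option Rel} {l h : CT} (hl : l.AllGood R) (hh : h.AllGood R) :
    (CT.join l h).AllGood R := by
  intro k z' hk
  rw [CT.get] at hk
  cases h1 : Nat.beq (k % 2) 0
  · exact hh _ _ (by simpa [h1] using hk)
  · exact hl _ _ (by simpa [h1] using hk)

/-- Binary trees of lemmas: a context, the indices of the earlier lemmas used, a counting tree. -/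
inductive LC where
  | nil
  | node (c : Ctx) (ks : List ℕ) (t : Tr) (l h : LC)

/-- The contexts of a tree of lemmas. -/
def LC.ctxs : LC → CT
  | .nil => .nil
  | .node c _ _ l h => .node c l.ctxs h.ctxs

/-- Checking all lemmas; `ref n` refers to the `n`-th index of the lemma's list. -/
def LC.ok (R : ℕ → Option Rel) (S : CT) : LC → Bool
  | .nil => true
  | .node c ks t l h => check R G0 (S.pick ks) t c && l.ok R S && h.ok R S

theorem LC.ok_node {R : ℕ → Option Rel} {S : CT} {c : Ctx} {ks : List ℕ} {t : Tr} {l h : LC}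
    (h0 : check R G0 (S.pick ks) t c = true) (hl : l.ok R S = true) (hh : h.ok R S = true) :
    (LC.node c ks t l h).ok R S = true := by
  rw [LC.ok, h0, hl, hh]
  rfl

theorem LC.sound {R : ℕ → Option Rel} {S : CT} (hS : S.AllGood R) :
    ∀ {L : LC}, L.ok R S = true → L.ctxs.AllGood R
  | .nil, _ => CT.AllGood.nil R
  | .node c ks t l h, H => by
    simp only [LC.ok, Bool.and_eq_true] at H
    exact CT.AllGood.node (check_good (hS.pick ks) t _ H.1.1) (LC.sound hS H.1.2)
      (LC.sound hS H.2)

/-- One more batch. -/
theorem CT.AllGood.extend {R : ℕ → Option Rel} {S : CT} (hS : S.AllGood R) {L : LC}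
    (h : L.ok R S = true) : (CT.join L.ctxs S).AllGood R :=
  (LC.sound hS h).join hS

end Pool.Agent.Lib.MP_755cca_al.Cnt
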