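import Pool.Agent.Lib.MP_755cca_al.Cnt.Defs

/-!
# Soundness of derivations and of Farkas certificates
-/

namespace Pool.Agent.Lib.MP_755cca_al.Cnt

open Finset

theorem testBit_ins {m i j : ℕ} : (ins m i).testBit j = true ↔ m.testBit j = true ∨ j = i := by
  rw [ins, Nat.testBit_or, Nat.testBit_two_pow, Bool.or_eq_true, decide_eq_true_iff,
    eq_comm (a := i)]

theorem testBit_insL {m j : ℕ} : ∀ {M : Mono},
    (insL m M).testBit j = true ↔ m.testBit j = true ∨ j ∈ M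
  | [] => by simp [insL]
  | i :: M => by
    rw [insL, testBit_ins, testBit_insL, List.mem_cons]
    tauto

theorem allB_iff {m : ℕ} {M : Mono} : allB m M = true ↔ ∀ i ∈ M, m.testBit i = true := by
  simp [allB]

theorem anyB_iff {m : ℕ} {M : Mono} : anyB m M = true ↔ ∃ i ∈ M, m.testBit i = true := by
  simp [anyB]

@[simp] theorem ev_nil (y : Pt) : ev y [] = 1 := rfl

@[simp] theorem ev_cons (y : Pt) (i : ℕ) (M : Mono) : ev y (i :: M) = y i * ev y M := by
  simp [ev]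

theorem ev_append (y : Pt) (M M' : Mono) : ev y (M ++ M') = ev y M * ev y M' := by
  simp [ev]

theorem dvd_ev {y : Pt} {i : ℕ} {M : Mono} (h : i ∈ M) : y i ∣ ev y M :=
  List.dvd_prod (List.mem_map_of_mem h)

theorem ev_ne_zero {y : Pt} : ∀ {M : Mono}, (∀ i ∈ M, y i ≠ 0) → ev y M ≠ 0
  | [], _ => by simp
  | i :: M, h => by
    rw [ev_cons]
    exact Nat.mul_ne_zero (h i List.mem_cons_self)
      (ev_ne_zero fun j hj => h j (List.mem_cons_of_mem _ hj))

theorem ne_zero_of_ev {y : Pt} {M : Mono} (h : ev y M ≠ 0) {i : ℕ} (hi : i ∈ M) : y i ≠ 0 := by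
  intro h0
  have := dvd_ev (y := y) hi
  rw [h0] at this
  exact h (Nat.eq_zero_of_zero_dvd this)

theorem ev_congr {y y' : Pt} : ∀ {M : Mono}, (∀ i ∈ M, y i = y' i) → ev y M = ev y' M
  | [], _ => rfl
  | i :: M, h => by
    rw [ev_cons, ev_cons, h i List.mem_cons_self,
      ev_congr fun j hj => h j (List.mem_cons_of_mem _ hj)]

theorem not_dvd_ev {y : Pt} {p : ℕ} (hp : p.Prime) :
    ∀ {M : Mono}, (∀ i ∈ M, ¬ p ∣ y i) → ¬ p ∣ ev y M
  | [], _ => by simpa using hp.one_lt.ne'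
  | i :: M, h => by
    rw [ev_cons, hp.dvd_mul]
    rintro (h1 | h1)
    · exact h i List.mem_cons_self h1
    · exact not_dvd_ev hp (fun j hj => h j (List.mem_cons_of_mem _ hj)) h1

theorem ev_erase {y : Pt} {x : ℕ} {M : Mono} (h : x ∈ M) : ev y M = y x * ev y (M.erase x) := by
  have := (List.perm_cons_erase h).map y
  rw [ev, this.prod_eq]
  simp [ev]

theorem log_ev {y : Pt} : ∀ {M : Mono}, ev y M ≠ 0 → Real.log (ev y M) = lg y M
  | [], _ => by simp [lg]
  | i :: M, h => by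
    rw [ev_cons] at h
    have h1 : y i ≠ 0 := left_ne_zero_of_mul h
    have h2 : ev y M ≠ 0 := right_ne_zero_of_mul h
    rw [ev_cons, Nat.cast_mul, Real.log_mul (by exact_mod_cast h1) (by exact_mod_cast h2),
      log_ev h2]
    simp [lg]

theorem RelOK.rot {y : Pt} {r : Rel} (h : RelOK y r) : ∀ j, RelOK y (rot r j)
  | 0 => h
  | 1 => by unfold RelOK Tri at *; simp only [Cnt.rot]; omega
  | _ + 2 => by unfold RelOK Tri at *; simp only [Cnt.rot]; omega

section Ctx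
variable {c : Ctx} {y : Pt} {M : Mono}

theorem Ctx.Holds.ev_ne (h : c.Holds y) (hM : allB c.N M = true) : ev y M ≠ 0 :=
  ev_ne_zero fun i hi => h.n i (allB_iff.1 hM i hi)

theorem Ctx.Holds.ev_zero (h : c.Holds y) (hM : anyB c.Z M = true) : ev y M = 0 := by
  obtain ⟨i, hi, hz⟩ := anyB_iff.1 hM
  have := dvd_ev (y := y) hi
  rw [h.z i hz] at this
  exact Nat.eq_zero_of_zero_dvd this

theorem Ctx.Holds.ev_dvd (h : c.Holds y) (hM : anyB c.P M = true) : y 0 ∣ ev y M := by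
  obtain ⟨i, hi, hz⟩ := anyB_iff.1 hM
  exact (h.p i hz).trans (dvd_ev hi)

theorem Ctx.Holds.ev_unit (h : c.Holds y) (hM : allB c.U M = true) : ¬ y 0 ∣ ev y M :=
  not_dvd_ev h.prime fun i hi => h.u i (allB_iff.1 hM i hi)

end Ctx

/-- What is known: the variables in `K` and the classes of the variables in `Km`. -/
def obs (K Km : ℕ) (y : Pt) : (ℕ → ℕ) × (ℕ → ℕ) :=
  (fun i => if K.testBit i = true then y i else 0,
    fun i => if Km.testBit i = true then cl y i else 0)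

theorem obs_eq_iff {K Km : ℕ} {y y' : Pt} : obs K Km y = obs K Km y' ↔
    (∀ i, K.testBit i = true → y i = y' i) ∧ ∀ i, Km.testBit i = true → cl y i = cl y' i := by
  simp only [obs, Prod.mk.injEq, funext_iff]
  constructor
  · rintro ⟨h1, h2⟩
    exact ⟨fun i hi => by simpa [hi] using h1 i, fun i hi => by simpa [hi] using h2 i⟩
  · rintro ⟨h1, h2⟩
    refine ⟨fun i => ?_, fun i => ?_⟩
    · split_ifs with hi
      · exact h1 i hi
      · rfl
    · split_ifs with hi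
      · exact h2 i hi
      · rfl

/-- The invariant of a derivation. -/
def Inv (A : Set Pt) (K Km : ℕ) : Prop :=
  Few A (obs K Km) ∧ ∀ i, K.testBit i = true → Bd A (fun y => y i)

theorem Inv.add_div {A : Set Pt} {K Km : ℕ} {T : Pt → ℕ} {d : Mono}
    (hB : ∀ i, K.testBit i = true → Bd A (fun y => y i))
    (h : Few A (fun y => (obs K Km y, T y))) (hT : Bd A T) (h0 : ∀ y ∈ A, T y ≠ 0)
    (hd : ∀ y ∈ A, ∀ i ∈ d, y i ∣ T y) : Inv A (insL K d) Km := by
  have h1 := h.divisors hT h0 (fun y _ y' _ e => congrArg Prod.snd e) d hd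
  refine ⟨h1.of_det fun y _ y' _ e => ?_, fun i hi => ?_⟩
  · have e1 : obs K Km y = obs K Km y' := congrArg (fun v => v.1.1) e
    have e2 : d.map y = d.map y' := congrArg Prod.snd e
    rw [obs_eq_iff] at e1 ⊢
    refine ⟨fun i hi => ?_, e1.2⟩
    rcases testBit_insL.1 hi with hi | hi
    · exact e1.1 i hi
    · exact List.map_inj_left.1 e2 i hi
  · rcases testBit_insL.1 hi with hi | hi
    · exact hB i hi
    · exact hT.of_le fun y hy => Nat.le_of_dvd (Nat.pos_of_ne_zero (h0 y hy)) (hd y hy i hi)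

theorem bd_ev {A : Set Pt} : ∀ {M : Mono}, (∀ i ∈ M, Bd A (fun y => y i)) →
    Bd A (fun y => ev y M)
  | [], _ => Bd.const 1
  | i :: M, h => by
    have := (h i List.mem_cons_self).mul (bd_ev fun j hj => h j (List.mem_cons_of_mem _ hj))
    simpa using this

section Run
variable {R : ℕ → Option Rel} {c : Ctx} {K Km : ℕ} {A : Set Pt}

theorem kn_bd {M : Mono} (hA : ∀ y ∈ A, c.Holds y) (hI : Inv A K Km) (h : kn c K M = true) :
    Bd A (fun y => ev y M) := by
  rw [kn, Bool.or_eq_true] at h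
  rcases h with h | h
  · exact bd_ev fun i hi => hI.2 i (allB_iff.1 h i hi)
  · exact (Bd.const 0).of_le fun y hy => ((hA y hy).ev_zero h).le

theorem kn_det {M : Mono} (h : kn c K M = true) {y y' : Pt} (hy : c.Holds y) (hy' : c.Holds y')
    (e : obs K Km y = obs K Km y') : ev y M = ev y' M := by
  rw [kn, Bool.or_eq_true] at h
  rcases h with h | h
  · exact ev_congr fun i hi => (obs_eq_iff.1 e).1 i (allB_iff.1 h i hi)
  · rw [hy.ev_zero h, hy'.ev_zero h]

theorem Inv.rel {r : Rel} (hI : Inv A K Km) (hA : ∀ y ∈ A, c.Holds y) (hr : ∀ y ∈ A, RelOK y r)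
    (h1 : kn c K r.2.1 = true) (h2 : kn c K r.2.2 = true) (h3 : allB c.N r.1 = true) :
    Inv A (insL K r.1) Km := by
  refine Inv.add_div (T := fun y => ev y r.1) hI.2 ?_ ?_ (fun y hy => (hA y hy).ev_ne h3)
    (fun y _ i hi => dvd_ev hi)
  · refine hI.1.two (fun y => ev y r.2.1 + ev y r.2.2)
      (fun y => (ev y r.2.1 - ev y r.2.2) + (ev y r.2.2 - ev y r.2.1)) fun y₀ hy₀ y hy e => ?_
    have := hr y hy
    rw [← kn_det h1 (hA y hy) (hA y₀ hy₀) e, ← kn_det h2 (hA y hy) (hA y₀ hy₀) e]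
    unfold RelOK Tri at this
    omega
  · refine ((kn_bd hA hI h1).add (kn_bd hA hI h2)).of_le fun y hy => ?_
    have := hr y hy
    unfold RelOK Tri at this
    omega

theorem Inv.pdiv {i : ℕ} (hI : Inv A K Km) (hA : ∀ y ∈ A, c.Holds y) (h1 : K.testBit i = true)
    (h2 : c.N.testBit i = true) (h3 : c.P.testBit i = true) : Inv A (ins K 0) Km := by
  have := Inv.add_div (A := A) (K := K) (Km := Km) (T := fun y => y i) (d := [0]) hI.2
    (hI.1.of_det fun y _ y' _ e => by rw [e, (obs_eq_iff.1 e).1 i h1]) (hI.2 i h1)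
    (fun y hy => (hA y hy).n i h2) (fun y hy j hj => by
      rw [List.mem_singleton.1 hj]; exact (hA y hy).p i h3)
  simpa [insL] using this

theorem cl_eq {y : Pt} {p : ℕ} (hp : y 0 = p) (i : ℕ) : cl y i = (((y i : ZMod p)) ^ 2).val := by
  rw [cl, hp, ← ZMod.val_natCast]
  push_cast
  rfl

theorem sq_var {y y' : Pt} {p : ℕ} [NeZero p] (hp : y 0 = p) (hp' : y' 0 = p)
    (e : obs K Km y = obs K Km y') {i : ℕ} (hi : (K ||| Km).testBit i = true) :
    (y i : ZMod p) ^ 2 = (y' i : ZMod p) ^ 2 := by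
  rw [Nat.testBit_or, Bool.or_eq_true] at hi
  rcases hi with hi | hi
  · rw [(obs_eq_iff.1 e).1 i hi]
  · have := (obs_eq_iff.1 e).2 i hi
    rw [cl_eq hp, cl_eq hp'] at this
    exact ZMod.val_injective p this

theorem sq_ev {y y' : Pt} {p : ℕ} : ∀ {M : Mono},
    (∀ i ∈ M, (y i : ZMod p) ^ 2 = (y' i : ZMod p) ^ 2) →
      (ev y M : ZMod p) ^ 2 = (ev y' M : ZMod p) ^ 2
  | [], _ => rfl
  | i :: M, h => by
    rw [ev_cons, ev_cons]
    push_cast
    rw [mul_pow, mul_pow, h i List.mem_cons_self,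
      sq_ev fun j hj => h j (List.mem_cons_of_mem _ hj)]

theorem knm_det {M : Mono} (h : knm c (K ||| Km) M = true) {y y' : Pt} {p : ℕ} [NeZero p]
    (hp : y 0 = p) (hp' : y' 0 = p) (hy : c.Holds y) (hy' : c.Holds y')
    (e : obs K Km y = obs K Km y') : (ev y M : ZMod p) ^ 2 = (ev y' M : ZMod p) ^ 2 := by
  rw [knm, Bool.or_eq_true] at h
  rcases h with h | h
  · exact sq_ev fun i hi => sq_var hp hp' e (allB_iff.1 h i hi)
  · have a1 := hy.ev_dvd h
    have a2 := hy'.ev_dvd h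
    rw [hp] at a1
    rw [hp'] at a2
    rw [(ZMod.natCast_eq_zero_iff _ _).2 a1, (ZMod.natCast_eq_zero_iff _ _).2 a2]

theorem tri_sq {F : Type} [Field F] {a b d a₀ b₀ : F}
    (h : d = a + b ∨ a = d + b ∨ b = d + a) (ha : a ^ 2 = a₀ ^ 2) (hb : b ^ 2 = b₀ ^ 2) :
    d ^ 2 = (a₀ + b₀) ^ 2 ∨ d ^ 2 = (a₀ - b₀) ^ 2 := by
  have hd : d ^ 2 = (a + b) ^ 2 ∨ d ^ 2 = (a - b) ^ 2 := by
    rcases h with h | h | h
    · left; rw [h]
    · right; rw [h]; ring
    · right; rw [h]; ring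
  rcases sq_eq_sq_iff_eq_or_eq_neg.1 ha with rfl | rfl <;>
    rcases sq_eq_sq_iff_eq_or_eq_neg.1 hb with rfl | rfl
  · exact hd
  · rcases hd with h | h
    · right; rw [h]; ring
    · left; rw [h]; ring
  · rcases hd with h | h
    · right; rw [h]; ring
    · left; rw [h]; ring
  · rcases hd with h | h
    · left; rw [h]; ring
    · right; rw [h]; ring

theorem Inv.md {r : Rel} {x : ℕ} (hI : Inv A K Km) (hA : ∀ y ∈ A, c.Holds y)
    (hr : ∀ y ∈ A, RelOK y r)
    (h0 : K.testBit 0 = true) (h1 : knm c (K ||| Km) r.2.1 = true)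
    (h2 : knm c (K ||| Km) r.2.2 = true) (h3 : x ∈ r.1)
    (h4 : allB (K ||| Km) (r.1.erase x) = true) (h5 : allB c.U (r.1.erase x) = true) :
    Inv A K (ins Km x) := by
  classical
  refine ⟨?_, hI.2⟩
  have key : Few A (fun y => (obs K Km y, cl y x)) := by
    refine hI.1.step (Sub.of_card 2 fun y₀ hy₀ => ?_)
    obtain ⟨p, hp'⟩ : ∃ p, y₀ 0 = p := ⟨_, rfl⟩
    have : Fact p.Prime := ⟨hp' ▸ (hA y₀ hy₀).prime⟩
    refine ⟨{(((ev y₀ r.2.1 : ZMod p) + ev y₀ r.2.2) ^ 2 / (ev y₀ (r.1.erase x)) ^ 2).val,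
      (((ev y₀ r.2.1 : ZMod p) - ev y₀ r.2.2) ^ 2 / (ev y₀ (r.1.erase x)) ^ 2).val},
      card_le_two, fun y hy e => ?_⟩
    have hp : y 0 = p := ((obs_eq_iff.1 e).1 0 h0).trans hp'
    have e1 := knm_det h1 hp hp' (hA y hy) (hA y₀ hy₀) e
    have e2 := knm_det h2 hp hp' (hA y hy) (hA y₀ hy₀) e
    have e3 : (ev y (r.1.erase x) : ZMod p) ^ 2 = (ev y₀ (r.1.erase x) : ZMod p) ^ 2 :=
      sq_ev fun i hi => sq_var hp hp' e (allB_iff.1 h4 i hi)
    have e4 : (ev y₀ (r.1.erase x) : ZMod p) ≠ 0 := by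
      rw [Ne, ZMod.natCast_eq_zero_iff, ← hp']
      exact (hA y₀ hy₀).ev_unit h5
    have e5 : (ev y r.1 : ZMod p) = ev y r.2.1 + ev y r.2.2 ∨
        (ev y r.2.1 : ZMod p) = ev y r.1 + ev y r.2.2 ∨
        (ev y r.2.2 : ZMod p) = ev y r.1 + ev y r.2.1 := by
      rcases hr y hy with h | h | h
      · left; rw [h]; push_cast; rfl
      · right; left; rw [h]; push_cast; rfl
      · right; right; rw [h]; push_cast; rfl
    have e6 := tri_sq e5 e1 e2
    rw [ev_erase h3] at e6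
    push_cast at e6
    rw [mul_pow, e3] at e6
    rw [cl_eq hp, mem_insert, mem_singleton]
    rcases e6 with h | h
    · left; rw [← h]; congr 1; field_simp
    · right; rw [← h]; congr 1; field_simp
  refine key.of_det fun y _ y' _ e => ?_
  have e1 : obs K Km y = obs K Km y' := congrArg Prod.fst e
  have e2 : cl y x = cl y' x := congrArg Prod.snd e
  rw [obs_eq_iff] at e1 ⊢
  refine ⟨e1.1, fun i hi => ?_⟩
  rcases testBit_ins.1 hi with hi | rfl
  · exact e1.2 i hi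
  · exact e2

theorem run_sound (hA : ∀ y ∈ A, y ∈ Pts R c) : ∀ (ds : List Step) (K Km : ℕ),
    run R c ds K Km = true → Inv A K Km → Few A tgt
  | [], K, Km, h, hI => by
    simp only [run, Bool.and_eq_true, Bool.or_eq_true] at h
    obtain ⟨h0, h1⟩ := h
    refine hI.1.of_det fun y hy y' hy' e => ?_
    obtain ⟨e1, e2⟩ := obs_eq_iff.1 e
    have hp := e1 0 h0
    refine Prod.ext hp ?_
    change cl y 1 = cl y' 1
    rcases h1 with (h1 | h1) | h1
    · rw [cl, cl, hp, e1 1 h1]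
    · exact e2 1 h1
    · have a1 := ((hA y hy).2.p 1 h1).trans (dvd_pow_self (y 1) two_ne_zero)
      have a2 := ((hA y' hy').2.p 1 h1).trans (dvd_pow_self (y' 1) two_ne_zero)
      rw [cl, cl, Nat.mod_eq_zero_of_dvd a1, Nat.mod_eq_zero_of_dvd a2]
  | .rel k j :: ds, K, Km, h, hI => by
    rw [run] at h
    cases hk : R k with
    | none => simp [hk] at h
    | some r =>
      simp only [hk, Bool.and_eq_true] at h
      obtain ⟨⟨⟨h1, h2⟩, h3⟩, h4⟩ := h
      exact run_sound hA ds _ _ h4 (hI.rel (fun y hy => (hA y hy).2)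
        (fun y hy => ((hA y hy).1 k r hk).rot j) h1 h2 h3)
  | .pdiv i :: ds, K, Km, h, hI => by
    simp only [run, Bool.and_eq_true] at h
    obtain ⟨⟨⟨h1, h2⟩, h3⟩, h4⟩ := h
    exact run_sound hA ds _ _ h4 (hI.pdiv (fun y hy => (hA y hy).2) h1 h2 h3)
  | .md k j x :: ds, K, Km, h, hI => by
    rw [run] at h
    cases hk : R k with
    | none => simp [hk] at h
    | some r =>
      simp only [hk, Bool.and_eq_true] at h
      obtain ⟨⟨⟨⟨⟨⟨h0, h1⟩, h2⟩, h3⟩, h4⟩, h5⟩, h6⟩ := h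
      exact run_sound hA ds _ _ h6 (hI.md (fun y hy => (hA y hy).2)
        (fun y hy => ((hA y hy).1 k r hk).rot j) h0 h1 h2 (by simpa using h3) h4 h5)

end Run

end Pool.Agent.Lib.MP_755cca_al.Cnt
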