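import Pool.Agent.Lib.MP_755cca_al.Cnt.Chk

/-!
# Packed counting trees and batches of lemmas

Trees are stored as streams of 20 bit tokens packed into natural numbers.  The parser needs no
proof; a batch of numbered contexts is checked in order, each tree may cite earlier contexts.
-/

namespace Pool.Agent.Lib.MP_755cca_al.Cnt.Zs

/-- Evaluate a number before using it. -/
def frc {α : Type} (n : ℕ) (f : ℕ → α) : α :=
  match n with
  | 0 => f 0
  | k + 1 => f (k + 1)

/-- The tokens of one chunk (the top token `1` marks the end), followed by `L`. -/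
def toks : ℕ → ℕ → List ℕ → List ℕ
  | 0, _, L => L
  | k + 1, n, L =>
    frc n fun m => cond (Nat.ble m 1) L ((m % 1048576) :: toks k (m / 1048576) L)

/-- The tokens of a list of chunks. -/
def stream : List ℕ → List ℕ
  | [] => []
  | n :: D => toks 4000 n (stream D)

/-- Read `n` tokens. -/
def pM : ℕ → List ℕ → List ℕ × List ℕ
  | 0, L => ([], L)
  | _ + 1, [] => ([], [])
  | n + 1, a :: L =>
    frc a fun b => match pM n L with
      | (M, L') => (b :: M, L')

/-- Read a list with its length. -/
def pL : List ℕ → List ℕ × List ℕ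
  | [] => ([], [])
  | a :: L => pM a L

/-- The number with the given digits. -/
def num : List ℕ → ℕ
  | [] => 0
  | a :: M => a + 1048576 * num M

/-- Read `n` derivation steps. -/
def pD : ℕ → List ℕ → List Step × List ℕ
  | 0, L => ([], L)
  | _ + 1, [] => ([], [])
  | n + 1, a :: L =>
    frc a fun b => frc (b / 16) fun k => frc (b / 4 % 4) fun j =>
      match b % 4 with
      | 0 => match pD n L with
        | (ds, L') => (.rel k j :: ds, L')
      | 1 => match pD n L with
        | (ds, L') => (.pdiv k :: ds, L')
      | _ => match L with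
        | [] => ([], [])
        | x :: L₁ => frc x fun y => match pD n L₁ with
          | (ds, L') => (.md k j y :: ds, L')

/-- Read a derivation with its length. -/
def pDs : List ℕ → List Step × List ℕ
  | [] => ([], [])
  | a :: L => pD a L

/-- Read a tree. -/
def pT : ℕ → List ℕ → Tr × List ℕ
  | 0, L => (.ref 0, L)
  | _ + 1, [] => (.ref 0, [])
  | f + 1, a :: L =>
    frc a fun b => frc (b / 64) fun k => frc (b / 16 % 4) fun j =>
      match b % 16 with
      | 0 => match pT f L with
        | (t₀, L₁) => match pT f L₁ with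
          | (t₁, L₂) => (.zero k t₀ t₁, L₂)
      | 1 => match pT f L with
        | (t₀, L₁) => match pT f L₁ with
          | (t₁, L₂) => (.pd k t₀ t₁, L₂)
      | 2 => match pT f L with
        | (t₀, L₁) => match pT f L₁ with
          | (t₁, L₂) => (.tri2 k j t₀ t₁, L₂)
      | 3 => match pT f L with
        | (t, L₁) => (.relax k j t, L₁)
      | 4 => match pT f L with
        | (t, L₁) => (.eqz k j t, L₁)
      | 5 => match pT f L with
        | (t, L₁) => (.unc k j t, L₁)
      | 6 => match pT f L with
        | (t, L₁) => (.pge k t, L₁)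
      | 7 => (.absZ k j, L)
      | 8 => (.absP k j, L)
      | 9 => (.ref k, L)
      | 10 => match pL L with
        | (S, L₁) => match pDs L₁ with
          | (ds, L₂) => (.leaf S 1 k false [] ds, L₂)
      | 11 => match pL L with
        | (S, L₁) => match pDs L₁ with
          | (ds, L₂) => match pT f L₂ with
            | (t, L₃) => (.cut S 100 k false ds t, L₃)
      | 12 => match pL L with
        | (S, L₀) => match pL L₀ with
          | (D, L₁) => match pDs L₁ with
            | (ds, L₂) => match pT f L₂ with
              | (t, L₃) => (.cutD S D 100 k false ds t, L₃)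
      | _ => match pL L with
        | (M, L₁) => (.fin k (num M) 0, L₁)

/-- The context number `n` of a table of masks: chunks of 32 entries of 264 bits. -/
def cxOf (T : List ℕ) (n : ℕ) : Ctx :=
  frc (T.getD (n / 32) 0 / 2 ^ (264 * (n % 32)) % 2 ^ 264) fun e =>
    frc (e % 2 ^ 132) fun z => frc (e / 2 ^ 132) fun p => ⟨z, 1, p, 0, []⟩

/-- Check `m` contexts from number `n` on. -/
def go (R : ℕ → Option Rel) (cx : ℕ → Ctx) : ℕ → ℕ → List ℕ → Bool
  | 0, _, _ => true
  | m + 1, n, L =>
    match pL L with
    | (refs, L₁) => match pT 100000 L₁ with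
      | (t, L₂) => (refs.all fun i => Nat.blt i n) && check R G0 (refs.map cx) t (cx n) &&
          go R cx m (n + 1) L₂

theorem go_sound {R : ℕ → Option Rel} {cx : ℕ → Ctx} : ∀ (m n : ℕ) (L : List ℕ),
    go R cx m n L = true → (∀ i, i < n → Good R (cx i)) → ∀ i, i < n + m → Good R (cx i)
  | 0, _, _, _, h => h
  | m + 1, n, L, hg, h => by
    simp only [go, Bool.and_eq_true, List.all_eq_true, Nat.blt_eq] at hg
    obtain ⟨⟨h1, h2⟩, h3⟩ := hg
    have hn : Good R (cx n) := by
      refine check_good ?_ _ _ h2
      intro c hc
      obtain ⟨i, hi, rfl⟩ := List.mem_map.1 hc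
      exact h i (h1 i hi)
    have h' : ∀ i, i < n + 1 → Good R (cx i) := by
      intro i hi
      rcases Nat.lt_succ_iff_lt_or_eq.1 hi with hi | rfl
      · exact h i hi
      · exact hn
    intro i hi
    exact go_sound m (n + 1) _ h3 h' i (by omega)

/-- Check one more context `c`, citing a given context `c₁` (number `0`) and contexts below `n`. -/
def top (R : ℕ → Option Rel) (cx : ℕ → Ctx) (n : ℕ) (c₁ c : Ctx) (L : List ℕ) : Bool :=
  match pL L with
  | (refs, L₁) => (refs.all fun i => Nat.blt i n) &&
      check R G0 (c₁ :: refs.map cx) (pT 100000 L₁).1 c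

theorem top_sound {R : ℕ → Option Rel} {cx : ℕ → Ctx} {n : ℕ} {c₁ c : Ctx} {L : List ℕ}
    (ht : top R cx n c₁ c L = true) (h : ∀ i, i < n → Good R (cx i)) (h₁ : Good R c₁) :
    Good R c := by
  simp only [top, Bool.and_eq_true, List.all_eq_true, Nat.blt_eq] at ht
  refine check_good ?_ _ _ ht.2
  intro c hc
  rcases List.mem_cons.1 hc with rfl | hc
  · exact h₁
  · obtain ⟨i, hi, rfl⟩ := List.mem_map.1 hc
    exact h i (ht.1 i hi)

end Pool.Agent.Lib.MP_755cca_al.Cnt.Zs
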