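import Pool.Agent.Lib.MP_755cca_al.Cnt.ZsB0
import Pool.Agent.Lib.MP_755cca_al.Cnt.ZsB1
import Pool.Agent.Lib.MP_755cca_al.Cnt.ZsB2
import Pool.Agent.Lib.MP_755cca_al.Cnt.ZsB3
import Pool.Agent.Lib.MP_755cca_al.Cnt.ZsB4
import Pool.Agent.Lib.MP_755cca_al.Cnt.ZsB5
import Pool.Agent.Lib.MP_755cca_al.Cnt.ZsB6
import Pool.Agent.Lib.MP_755cca_al.Cnt.ZsB7
import Pool.Agent.Lib.MP_755cca_al.Cnt.ZsB8
import Pool.Agent.Lib.MP_755cca_al.Cnt.ZsB9
import Pool.Agent.Lib.MP_755cca_al.Cnt.ZsB10
import Pool.Agent.Lib.MP_755cca_al.Cnt.ZsB11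
import Pool.Agent.Lib.MP_755cca_al.Cnt.ZsB12
import Pool.Agent.Lib.MP_755cca_al.Cnt.ZsB13
import Pool.Agent.Lib.MP_755cca_al.Cnt.ZsB14
import Pool.Agent.Lib.MP_755cca_al.Cnt.ZsB15
import Pool.Agent.Lib.MP_755cca_al.T48.NZ

set_option maxRecDepth 100000

namespace Pool.Agent.Lib.MP_755cca_al.Cnt.Zs

theorem g0 : ∀ i, i < 0 → Good T48.RR.get (cx i) := fun _ h => absurd h (Nat.not_lt_zero _)

theorem g1 : ∀ i, i < 55 → Good T48.RR.get (cx i) := go_sound 55 0 _ ok0 g0

theorem g2 : ∀ i, i < 98 → Good T48.RR.get (cx i) := go_sound 43 55 _ ok1 g1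

theorem g3 : ∀ i, i < 151 → Good T48.RR.get (cx i) := go_sound 53 98 _ ok2 g2

theorem g4 : ∀ i, i < 208 → Good T48.RR.get (cx i) := go_sound 57 151 _ ok3 g3

theorem g5 : ∀ i, i < 238 → Good T48.RR.get (cx i) := go_sound 30 208 _ ok4 g4

theorem g6 : ∀ i, i < 280 → Good T48.RR.get (cx i) := go_sound 42 238 _ ok5 g5

theorem g7 : ∀ i, i < 317 → Good T48.RR.get (cx i) := go_sound 37 280 _ ok6 g6

theorem g8 : ∀ i, i < 374 → Good T48.RR.get (cx i) := go_sound 57 317 _ ok7 g7

theorem g9 : ∀ i, i < 422 → Good T48.RR.get (cx i) := go_sound 48 374 _ ok8 g8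

theorem g10 : ∀ i, i < 450 → Good T48.RR.get (cx i) := go_sound 28 422 _ ok9 g9

theorem g11 : ∀ i, i < 499 → Good T48.RR.get (cx i) := go_sound 49 450 _ ok10 g10

theorem g12 : ∀ i, i < 539 → Good T48.RR.get (cx i) := go_sound 40 499 _ ok11 g11

theorem g13 : ∀ i, i < 589 → Good T48.RR.get (cx i) := go_sound 50 539 _ ok12 g12

theorem g14 : ∀ i, i < 626 → Good T48.RR.get (cx i) := go_sound 37 589 _ ok13 g13

theorem g15 : ∀ i, i < 664 → Good T48.RR.get (cx i) := go_sound 38 626 _ ok14 g14

theorem g16 : ∀ i, i < 701 → Good T48.RR.get (cx i) := go_sound 37 664 _ ok15 g15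

theorem g17 : ∀ i, i < 737 → Good T48.RR.get (cx i) := go_sound 36 701 _ ok16 g16

theorem g18 : ∀ i, i < 754 → Good T48.RR.get (cx i) := go_sound 17 737 _ ok17 g17

theorem g19 : ∀ i, i < 755 → Good T48.RR.get (cx i) := go_sound 1 754 _ ok18 g18

theorem g20 : ∀ i, i < 794 → Good T48.RR.get (cx i) := go_sound 39 755 _ ok19 g19

theorem g21 : ∀ i, i < 832 → Good T48.RR.get (cx i) := go_sound 38 794 _ ok20 g20

theorem g22 : ∀ i, i < 874 → Good T48.RR.get (cx i) := go_sound 42 832 _ ok21 g21

theorem g23 : ∀ i, i < 900 → Good T48.RR.get (cx i) := go_sound 26 874 _ ok22 g22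

theorem g24 : ∀ i, i < 901 → Good T48.RR.get (cx i) := go_sound 1 900 _ ok23 g23

theorem g25 : ∀ i, i < 954 → Good T48.RR.get (cx i) := go_sound 53 901 _ ok24 g24

theorem g26 : ∀ i, i < 971 → Good T48.RR.get (cx i) := go_sound 17 954 _ ok25 g25

theorem g27 : ∀ i, i < 1004 → Good T48.RR.get (cx i) := go_sound 33 971 _ ok26 g26

theorem g28 : ∀ i, i < 1045 → Good T48.RR.get (cx i) := go_sound 41 1004 _ ok27 g27

theorem g29 : ∀ i, i < 1063 → Good T48.RR.get (cx i) := go_sound 18 1045 _ ok28 g28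

theorem g30 : ∀ i, i < 1095 → Good T48.RR.get (cx i) := go_sound 32 1063 _ ok29 g29

theorem g31 : ∀ i, i < 1129 → Good T48.RR.get (cx i) := go_sound 34 1095 _ ok30 g30

theorem g32 : ∀ i, i < 1147 → Good T48.RR.get (cx i) := go_sound 18 1129 _ ok31 g31

theorem g33 : ∀ i, i < 1148 → Good T48.RR.get (cx i) := go_sound 1 1147 _ ok32 g32

theorem g34 : ∀ i, i < 1175 → Good T48.RR.get (cx i) := go_sound 27 1148 _ ok33 g33

theorem g35 : ∀ i, i < 1208 → Good T48.RR.get (cx i) := go_sound 33 1175 _ ok34 g34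

theorem g36 : ∀ i, i < 1258 → Good T48.RR.get (cx i) := go_sound 50 1208 _ ok35 g35

theorem g37 : ∀ i, i < 1281 → Good T48.RR.get (cx i) := go_sound 23 1258 _ ok36 g36

theorem g38 : ∀ i, i < 1301 → Good T48.RR.get (cx i) := go_sound 20 1281 _ ok37 g37

theorem g39 : ∀ i, i < 1317 → Good T48.RR.get (cx i) := go_sound 16 1301 _ ok38 g38

theorem g40 : ∀ i, i < 1366 → Good T48.RR.get (cx i) := go_sound 49 1317 _ ok39 g39

theorem g41 : ∀ i, i < 1384 → Good T48.RR.get (cx i) := go_sound 18 1366 _ ok40 g40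

theorem g42 : ∀ i, i < 1385 → Good T48.RR.get (cx i) := go_sound 1 1384 _ ok41 g41

theorem g43 : ∀ i, i < 1407 → Good T48.RR.get (cx i) := go_sound 22 1385 _ ok42 g42

theorem g44 : ∀ i, i < 1431 → Good T48.RR.get (cx i) := go_sound 24 1407 _ ok43 g43

theorem g45 : ∀ i, i < 1462 → Good T48.RR.get (cx i) := go_sound 31 1431 _ ok44 g44

theorem g46 : ∀ i, i < 1482 → Good T48.RR.get (cx i) := go_sound 20 1462 _ ok45 g45

theorem g47 : ∀ i, i < 1506 → Good T48.RR.get (cx i) := go_sound 24 1482 _ ok46 g46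

theorem g48 : ∀ i, i < 1548 → Good T48.RR.get (cx i) := go_sound 42 1506 _ ok47 g47

theorem g49 : ∀ i, i < 1570 → Good T48.RR.get (cx i) := go_sound 22 1548 _ ok48 g48

theorem g50 : ∀ i, i < 1586 → Good T48.RR.get (cx i) := go_sound 16 1570 _ ok49 g49

theorem g51 : ∀ i, i < 1632 → Good T48.RR.get (cx i) := go_sound 46 1586 _ ok50 g50

theorem g52 : ∀ i, i < 1656 → Good T48.RR.get (cx i) := go_sound 24 1632 _ ok51 g51

theorem g53 : ∀ i, i < 1666 → Good T48.RR.get (cx i) := go_sound 10 1656 _ ok52 g52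

theorem g54 : ∀ i, i < 1708 → Good T48.RR.get (cx i) := go_sound 42 1666 _ ok53 g53

theorem g55 : ∀ i, i < 1752 → Good T48.RR.get (cx i) := go_sound 44 1708 _ ok54 g54

theorem g56 : ∀ i, i < 1769 → Good T48.RR.get (cx i) := go_sound 17 1752 _ ok55 g55

theorem g57 : ∀ i, i < 1786 → Good T48.RR.get (cx i) := go_sound 17 1769 _ ok56 g56

theorem g58 : ∀ i, i < 1819 → Good T48.RR.get (cx i) := go_sound 33 1786 _ ok57 g57

theorem g59 : ∀ i, i < 1841 → Good T48.RR.get (cx i) := go_sound 22 1819 _ ok58 g58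

theorem g60 : ∀ i, i < 1888 → Good T48.RR.get (cx i) := go_sound 47 1841 _ ok59 g59

theorem g61 : ∀ i, i < 1908 → Good T48.RR.get (cx i) := go_sound 20 1888 _ ok60 g60

theorem g62 : ∀ i, i < 1935 → Good T48.RR.get (cx i) := go_sound 27 1908 _ ok61 g61

theorem g63 : ∀ i, i < 1966 → Good T48.RR.get (cx i) := go_sound 31 1935 _ ok62 g62

theorem g64 : ∀ i, i < 1991 → Good T48.RR.get (cx i) := go_sound 25 1966 _ ok63 g63

theorem g65 : ∀ i, i < 2010 → Good T48.RR.get (cx i) := go_sound 19 1991 _ ok64 g64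

theorem g66 : ∀ i, i < 2054 → Good T48.RR.get (cx i) := go_sound 44 2010 _ ok65 g65

theorem g67 : ∀ i, i < 2089 → Good T48.RR.get (cx i) := go_sound 35 2054 _ ok66 g66

theorem g68 : ∀ i, i < 2126 → Good T48.RR.get (cx i) := go_sound 37 2089 _ ok67 g67

theorem g69 : ∀ i, i < 2160 → Good T48.RR.get (cx i) := go_sound 34 2126 _ ok68 g68

theorem g70 : ∀ i, i < 2189 → Good T48.RR.get (cx i) := go_sound 29 2160 _ ok69 g69

theorem g71 : ∀ i, i < 2195 → Good T48.RR.get (cx i) := go_sound 6 2189 _ ok70 g70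

theorem top_ok : top T48.RR.get cx 2195 T48.cN ctx0 (stream
  [0x10000901a8902000013c901fc00200901f800148901f400188901f0001ec901ec000cc901e8001bc901e4001fc901e000088901dc001e8901d80019c901d400020901d0001e0901cc001e4901c800008901c4001f0901c0001f4901bc00044901b8001c0901b4001c4901b000164901ac000f4901a8001f8901a4001d4901a0000809019c000b090198000c0901940016890190000149018c001cc901880011890184000dc90180001989017c00104901780014490174001a090170001ac9016c000f090168001d8901640007490160001b09015c0003490158001d0901540017890150001809014c000a490148001c8901440002c90140001849013c0002490138000d0901340007c90130000389012c000fc90128001b890124001dc90120000289011c0001c90118001a4901140004c90110001349010c00110901080013090104000c89010000190900fc00040900f800150900f400048900f0001b4900ec00084900e800154900e4000d8900e00018c900dc00160900d80015c900d40012c900d000124900cc00174900c8000ac900c400058900c0000c4900bc000e0900b80011c900b4000b4900b000100900ac00054900a800120900a40016c900a0000f89009c00140900980009c9009400064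90090000909008c0000c900880007090084000a0900800010c9007c0006890078000b89007400004900700005c9006c00010900680007890064000ec90060000949005c0001890058000bc900540013890050000e49004c0008c9004800060900440003090040000989003c00114900380006c900340012890030001709002c0014c90028000509002400194900200017c9001c000d490018000e8900140015890010001089000c0003c90008000a89000400089200891008900088f0088e0088d0088c0088b0088a008890088800887008860088500884008830088200881008800087c0087a0087800877008760087300872008700086d0086b0086900867008660086400860008590085800854008520084a0084900848008460084300838008360082b008200081f0081400811008100080a0080900808008030080200800007ec007da007d4007cb007c8007ba007a5007a30078a007870076c0076b0076900761007600072c007210071e0071b006fe006ea006e9006d8006970069400682006780066c00632006260062500622005d0005be005b60057f0056800518005160051500504004fe004f6004f1004bb004970047b00421003e1003c700384003680031c00309002fd002f8002f2002a100272002570022100217001f3001dc001cd001c1001a80012a000eb0007e0005200080])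 = true := by decide +kernel

/-- The target takes few values on all points. -/
theorem good0 : Good T48.RR.get ctx0 := top_sound top_ok g71 T48.good_cN

end Pool.Agent.Lib.MP_755cca_al.Cnt.Zs
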